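import Mathlib

/-!
Bounded germs, null germs, and the ring of bounded fractions.
-/

set_option autoImplicit false

open Set Filter Topology

namespace Pool.Agent.MP_2023ef_al.H81

section Germ

variable {I : Type} {l : Filter I} {B : Type} [NormedCommRing B]

/-- the germ is bounded by `K` -/
def Le (g : Germ l B) (K : ℝ) : Prop := g.LiftPred fun b => ‖b‖ ≤ K

theorem le_coe {f : I → B} {K : ℝ} : Le (f : Germ l B) K ↔ ∀ᶠ i in l, ‖f i‖ ≤ K :=
  Germ.liftPred_coe

omit [NormedCommRing B] in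
theorem exists_rep (g : Germ l B) : ∃ f : I → B, (f : Germ l B) = g :=
  g.inductionOn fun f => ⟨f, rfl⟩

theorem Le.add {g h : Germ l B} {K L : ℝ} (hg : Le g K) (hh : Le h L) : Le (g + h) (K + L) := by
  obtain ⟨f, rfl⟩ := exists_rep g
  obtain ⟨f', rfl⟩ := exists_rep h
  rw [← Germ.coe_add, le_coe]
  filter_upwards [le_coe.1 hg, le_coe.1 hh] with i h1 h2
  exact (norm_add_le _ _).trans (add_le_add h1 h2)

theorem Le.mul {g h : Germ l B} {K L : ℝ} (hg : Le g K) (hh : Le h L) : Le (g * h) (K * L) := by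
  obtain ⟨f, rfl⟩ := exists_rep g
  obtain ⟨f', rfl⟩ := exists_rep h
  rw [← Germ.coe_mul, le_coe]
  filter_upwards [le_coe.1 hg, le_coe.1 hh] with i h1 h2
  exact (norm_mul_le _ _).trans (mul_le_mul h1 h2 (norm_nonneg _) ((norm_nonneg _).trans h1))

theorem Le.neg {g : Germ l B} {K : ℝ} (hg : Le g K) : Le (-g) K := by
  obtain ⟨f, rfl⟩ := exists_rep g
  rw [← Germ.coe_neg, le_coe]
  simpa using le_coe.1 hg

theorem Le.mono {g : Germ l B} {K L : ℝ} (hg : Le g K) (h : K ≤ L) : Le g L := by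
  obtain ⟨f, rfl⟩ := exists_rep g
  exact le_coe.2 ((le_coe.1 hg).mono fun i hi => hi.trans h)

theorem le_const (b : B) : Le ((fun _ => b : I → B) : Germ l B) ‖b‖ :=
  le_coe.2 (Eventually.of_forall fun _ => le_rfl)

variable (l B) in
/-- bounded germs -/
def Bd : Subring (Germ l B) where
  carrier := {g | ∃ K, Le g K}
  mul_mem' := fun ⟨_, h⟩ ⟨_, h'⟩ => ⟨_, h.mul h'⟩
  one_mem' := ⟨_, le_const 1⟩
  add_mem' := fun ⟨_, h⟩ ⟨_, h'⟩ => ⟨_, h.add h'⟩
  zero_mem' := ⟨_, le_const 0⟩
  neg_mem' := fun ⟨_, h⟩ => ⟨_, h.neg⟩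

variable (l B) in
/-- null germs -/
def Nul : Ideal (Bd l B) where
  carrier := {g | ∀ ε, 0 < ε → Le g.1 ε}
  add_mem' := fun {a b} ha hb ε hε =>
    ((ha _ (half_pos hε)).add (hb _ (half_pos hε))).mono (add_halves ε).le
  zero_mem' := fun ε hε => (le_const 0).mono (by simpa using hε.le)
  smul_mem' := fun c a ha ε hε => by
    obtain ⟨K, hK⟩ := c.2
    have h : 0 < |K| + 1 := by positivity
    refine ((hK.mono ((le_abs_self K).trans (le_add_of_nonneg_right zero_le_one))).mul
      (ha (ε / (|K| + 1)) (by positivity))).mono (le_of_eq ?_)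
    field_simp

variable (l B) in
/-- constant germs -/
def cst : B →+* Bd l B :=
  ((Germ.coeRingHom l).comp (Pi.constRingHom I B)).codRestrict _ fun b => ⟨_, le_const b⟩

theorem cst_val (b : B) : (cst l B b).1 = ((fun _ => b : I → B) : Germ l B) := rfl

end Germ

section Frac

variable {R G : Type} [CommRing R] [CommRing G] (φ : R →+* G) (B : Subring G)

/-- the denominators -/
def Den : Submonoid R := (IsUnit.submonoid G).comap φ

/-- the value of a fraction -/
noncomputable def val : Localization (Den φ) →+* G :=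
  IsLocalization.lift (M := Den φ) (g := φ) fun y => y.2

/-- fractions with values in `B` -/
noncomputable def Fr : Subring (Localization (Den φ)) := B.comap (val φ)

theorem val_alg (r : R) : val φ (algebraMap R _ r) = φ r := IsLocalization.lift_eq _ _

theorem fr_isDomain [IsDomain R] [Nontrivial G] : IsDomain (Fr φ B) := by
  have : IsDomain (Localization (Den φ)) := IsLocalization.isDomain_localization fun r hr =>
    mem_nonZeroDivisors_of_ne_zero fun h => by
      have h1 : IsUnit (φ r) := hr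
      rw [h, map_zero] at h1
      exact not_isUnit_zero h1
  infer_instance

theorem exists_inv {w : R} {w' : G} (h : φ w * w' = 1) :
    ∃ z : Localization (Den φ), algebraMap R _ w * z = 1 ∧ val φ z = w' := by
  obtain ⟨z, hz⟩ := (IsLocalization.map_units (Localization (Den φ))
    (⟨w, IsUnit.of_mul_eq_one _ h⟩ : Den φ)).exists_right_inv
  refine ⟨z, hz, ?_⟩
  have h1 := congrArg (val φ) hz
  rw [map_mul, val_alg, map_one] at h1
  rw [← one_mul (val φ z), ← h, mul_right_comm, h1, one_mul]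

theorem fr_isUnit {x : Fr φ B} {g : G} (hg : g ∈ B) (h : val φ x.1 * g = 1) : IsUnit x := by
  obtain ⟨⟨a, s⟩, e⟩ := IsLocalization.surj (Den φ) x.1
  obtain ⟨s', hs'⟩ := IsUnit.exists_right_inv (a := φ s) s.2
  have e1 := congrArg (val φ) e
  rw [map_mul, val_alg, val_alg] at e1
  obtain ⟨z, hz, hz'⟩ := exists_inv φ (w := a) (w' := g * s') (by
    rw [← e1]
    linear_combination (φ s * s') * h + hs')
  refine IsUnit.of_mul_eq_one ⟨algebraMap R _ s * z, ?_⟩ (Subtype.ext ?_)
  · change val φ _ ∈ B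
    rw [map_mul, val_alg, hz', mul_left_comm, hs', mul_one]
    exact hg
  · change x.1 * (algebraMap R _ s * z) = 1
    rw [← mul_assoc, e, hz]

theorem fr_isBezout [IsDomain R] [UniqueFactorizationMonoid R]
    (h : ∀ a b : R, IsRelPrime a b → ∃ u v, φ u ∈ B ∧ φ v ∈ B ∧ ∃ w', φ (u * a + v * b) * w' = 1 ∧
      φ a * w' ∈ B ∧ φ b * w' ∈ B) : IsBezout (Fr φ B) := by
  refine IsBezout.iff_span_pair_isPrincipal.2 fun x y => ?_
  obtain ⟨⟨p, s⟩, e⟩ := IsLocalization.surj (Den φ) x.1
  obtain ⟨⟨q, t⟩, e'⟩ := IsLocalization.surj (Den φ) y.1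
  obtain ⟨s', hs⟩ := (IsLocalization.map_units (Localization (Den φ)) s).exists_right_inv
  obtain ⟨t', ht⟩ := (IsLocalization.map_units (Localization (Den φ)) t).exists_right_inv
  by_cases h0 : p * t = 0
  · have hx : x = 0 := Subtype.ext (by
      have := congrArg (algebraMap R (Localization (Den φ))) h0
      rw [map_mul, map_zero, ← e] at this
      change x.1 = 0
      linear_combination (s' * t') * this - x.1 * hs - x.1 * (algebraMap R _ s * s') * ht)
    exact ⟨y, by rw [hx, Ideal.span_insert_zero]⟩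
  obtain ⟨a, b, c, hab, ea, eb⟩ := UniqueFactorizationMonoid.exists_reduced_factors _ h0 (q * s)
  obtain ⟨u, v, hu, hv, w', hw, ha, hb⟩ := h a b hab
  obtain ⟨z, hz, hz'⟩ := exists_inv φ hw
  have ea' := congrArg (algebraMap R (Localization (Den φ))) ea
  have eb' := congrArg (algebraMap R (Localization (Den φ))) eb
  simp only [map_mul, map_add, ← e, ← e'] at ea' eb' hz
  let U : Fr φ B := ⟨algebraMap R _ u, by change val φ _ ∈ B; rwa [val_alg]⟩
  let V : Fr φ B := ⟨algebraMap R _ v, by change val φ _ ∈ B; rwa [val_alg]⟩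
  let a' : Fr φ B := ⟨algebraMap R _ a * z, by change val φ _ ∈ B; rwa [map_mul, val_alg, hz']⟩
  let b' : Fr φ B := ⟨algebraMap R _ b * z, by change val φ _ ∈ B; rwa [map_mul, val_alg, hz']⟩
  have ex : x.1 = algebraMap R _ c * s' * t' * algebraMap R _ a := by
    linear_combination (-s' * t') * ea' - x.1 * hs - x.1 * (algebraMap R _ s * s') * ht
  have ey : y.1 = algebraMap R _ c * s' * t' * algebraMap R _ b := by
    linear_combination (-s' * t') * eb' - y.1 * hs - y.1 * (algebraMap R _ s * s') * ht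
  refine ⟨U * x + V * y, le_antisymm (Ideal.span_le.2 ?_) ?_⟩
  · rintro F (rfl | rfl)
    · refine Ideal.mem_span_singleton'.2 ⟨a', Subtype.ext ?_⟩
      change algebraMap R _ a * z * (algebraMap R _ u * F.1 + algebraMap R _ v * y.1) = F.1
      rw [ex, ey]
      linear_combination (algebraMap R _ c * s' * t' * algebraMap R _ a) * hz
    · refine Ideal.mem_span_singleton'.2 ⟨b', Subtype.ext ?_⟩
      change algebraMap R _ b * z * (algebraMap R _ u * x.1 + algebraMap R _ v * F.1) = F.1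
      rw [ex, ey]
      linear_combination (algebraMap R _ c * s' * t' * algebraMap R _ b) * hz
  · rw [Submodule.span_singleton_le_iff_mem]
    exact Ideal.mem_span_pair.2 ⟨U, V, rfl⟩

end Frac

section Fn

variable {I Y : Type} [TopologicalSpace Y] [CompactSpace Y]

theorem inv_bound {a w : C(Y, ℂ)} {K : ℝ} (hK : 0 ≤ K) (h : ∀ y, ‖a y‖ < K * ‖w y‖) :
    w * Ring.inverse w = 1 ∧ ‖a * Ring.inverse w‖ ≤ K := by
  have h0 : ∀ y, w y ≠ 0 := fun y hy => by
    have := h y
    rw [hy, norm_zero, mul_zero] at this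
    exact absurd this (not_lt.2 (norm_nonneg _))
  have h1 := Ring.mul_inverse_cancel w (w.isUnit_iff_forall_ne_zero.2 h0)
  refine ⟨h1, (ContinuousMap.norm_le _ hK).2 fun y => ?_⟩
  have h2 : w y * Ring.inverse w y = 1 := congrArg (· y) h1
  refine le_of_mul_le_mul_right ?_ (norm_pos_iff.2 (h0 y))
  rw [← norm_mul, ContinuousMap.mul_apply, mul_assoc, mul_comm _ (w y), h2, mul_one]
  exact (h y).le

/-- all residue fields are the complex numbers -/
theorem residue {l : Filter I} {A : Type} [CommRing A] [IsBezout A] (χ : A →+* Germ l C(Y, ℂ))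
    (hb : ∀ a, χ a ∈ Bd l C(Y, ℂ)) (hu : ∀ a, ∀ g ∈ Bd l C(Y, ℂ), χ a * g = 1 → IsUnit a)
    (κ : ℂ → A) (hκ : ∀ c, χ (κ c) = ((fun _ => ContinuousMap.const Y c : I → C(Y, ℂ)) : Germ l _))
    {m : Ideal A} (hm : m.IsMaximal) (x : A) : ∃ c, x - κ c ∈ m := by
  classical
  choose f hf using fun a => exists_rep (χ a)
  have hK : ∀ a, ∃ K : ℝ, 0 < K ∧ ∀ᶠ i in l, ∀ y, ‖f a i y‖ ≤ K := fun a => by
    obtain ⟨K, hK⟩ := hb a
    refine ⟨|K| + 1, by positivity, (le_coe.1 ((hf a).symm ▸ hK)).mono fun i hi y => ?_⟩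
    have := (f a i).norm_coe_le_norm y
    have := le_abs_self K
    linarith
  choose K hK0 hK using hK
  by_contra hcon
  push Not at hcon
  choose u n hn e using fun c => hm.exists_inv (hcon c)
  obtain ⟨t, -, ht⟩ := (isCompact_closedBall (0 : ℂ) (K x)).elim_nhds_subcover
    (fun c => Metric.ball c (1 / (2 * K (u c)))) fun c _ =>
      Metric.ball_mem_nhds _ (by have := hK0 (u c); positivity)
  obtain ⟨g, hg⟩ := IsBezout.isPrincipal_of_FG (Ideal.span (n '' t))
    ⟨t.image n, by rw [Finset.coe_image]⟩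
  have hgm : g ∈ m := (Ideal.span_le.2 (by rintro _ ⟨c, -, rfl⟩; exact hn c) :
    Ideal.span (n '' t) ≤ m) (hg ▸ Submodule.mem_span_singleton_self g)
  have hh : ∀ c, ∃ h, c ∈ t → h * g = n c := fun c => by
    by_cases hc : c ∈ t
    · obtain ⟨h, e⟩ := Ideal.mem_span_singleton'.1
        (show n c ∈ Ideal.span {g} from hg.le (Ideal.subset_span ⟨c, hc, rfl⟩))
      exact ⟨h, fun _ => e⟩
    · exact ⟨0, fun h => absurd h hc⟩
  choose h hh using hh
  let L : ℝ := ∑ c ∈ t, K (h c)
  have hL : 0 ≤ L := Finset.sum_nonneg fun c _ => (hK0 _).le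
  have key : ∀ᶠ i in l, ∀ y, ‖(1 : C(Y, ℂ)) y‖ < 3 * L * ‖f g i y‖ := by
    have h1 : ∀ᶠ i in l, ∀ c ∈ t, (∀ y, ‖f (u c) i y‖ ≤ K (u c)) ∧ (∀ y, ‖f (h c) i y‖ ≤ K (h c)) ∧
        f (u c) i * (f x i - ContinuousMap.const Y c) + f (h c) i * f g i = 1 := by
      refine (eventually_all_finset t).2 fun c hc => (hK _).and ((hK _).and ?_)
      refine (Germ.coe_eq (f := f (u c) * (f x - fun _ => ContinuousMap.const Y c) +
        f (h c) * f g) (g := 1)).1 ?_
      rw [Germ.coe_add, Germ.coe_mul, Germ.coe_mul, Germ.coe_sub, hf, hf, hf, hf, ← hκ, ← map_sub,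
        ← map_mul, ← map_mul, ← map_add, hh c hc, e c, map_one, Germ.coe_one]
    filter_upwards [h1, hK x] with i h1 h2 y
    obtain ⟨c, hc, hy⟩ := mem_iUnion₂.1 (ht (mem_closedBall_zero_iff.2 (h2 y)))
    obtain ⟨h3, h4, h5⟩ := h1 c hc
    have h6 : f (u c) i y * (f x i y - c) + f (h c) i y * f g i y = 1 := congrArg (· y) h5
    rw [mem_ball_iff_norm, lt_div_iff₀ (by have := hK0 (u c); positivity)] at hy
    have h7 : K (h c) ≤ L := Finset.single_le_sum (f := fun c => K (h c))
      (fun c _ => (hK0 _).le) hc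
    have h8 := norm_add_le (f (u c) i y * (f x i y - c)) (f (h c) i y * f g i y)
    rw [h6, norm_one, norm_mul, norm_mul] at h8
    have h9 := mul_le_mul_of_nonneg_right (h3 y) (norm_nonneg (f x i y - c))
    have h10 := mul_le_mul_of_nonneg_right ((h4 y).trans h7) (norm_nonneg (f g i y))
    rw [ContinuousMap.one_apply, norm_one]
    linarith
  refine hm.ne_top (Ideal.eq_top_of_isUnit_mem _ hgm (hu g
    ((fun i => Ring.inverse (f g i) : I → C(Y, ℂ)) : Germ l _) ⟨3 * L, le_coe.2 ?_⟩ ?_))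
  · exact key.mono fun i hi => by simpa using (inv_bound (by positivity) hi).2
  · rw [← hf, ← Germ.coe_mul, ← Germ.coe_one, Germ.coe_eq]
    exact key.mono fun i hi => (inv_bound (by positivity) hi).1

/-- approximate idempotents on a connected space are trivial -/
theorem idem_trivial [PreconnectedSpace Y] (l : Ultrafilter I)
    (e : Bd (l : Filter I) C(Y, ℂ) ⧸ Nul (l : Filter I) C(Y, ℂ)) (he : e * e = e) :
    e = 0 ∨ e = 1 := by
  obtain ⟨g, rfl⟩ := Ideal.Quotient.mk_surjective e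
  obtain ⟨f, hf⟩ := exists_rep g.1
  rw [← map_mul, Ideal.Quotient.eq] at he
  have h1 : ∀ ε, 0 < ε → ∀ᶠ i in (l : Filter I), ∀ y, ‖f i y‖ * ‖f i y - 1‖ ≤ ε := fun ε hε => by
    have h : Le (g.1 * g.1 - g.1) ε := he ε hε
    rw [← hf, ← Germ.coe_mul, ← Germ.coe_sub, le_coe] at h
    refine h.mono fun i hi y => le_trans (le_of_eq ?_) (((f * f - f) i).norm_coe_le_norm y |>.trans hi)
    rw [← norm_mul, mul_sub, mul_one]
    rfl
  have h2 : ∀ᶠ i in (l : Filter I), (∀ y, (f i y).re < 1 / 2) ∨ ∀ y, 1 / 2 < (f i y).re := by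
    filter_upwards [h1 (1 / 8) (by norm_num)] with i hi
    by_contra hc
    push Not at hc
    obtain ⟨⟨a, ha⟩, b, hb⟩ := hc
    obtain ⟨y, hy⟩ := intermediate_value_univ b a (f := fun y => (f i y).re) (by fun_prop) ⟨hb, ha⟩
    have h3 := Complex.abs_re_le_norm (f i y)
    have h4 := Complex.abs_re_le_norm (f i y - 1)
    have hy' : (f i y).re = 1 / 2 := hy
    rw [Complex.sub_re, Complex.one_re, hy'] at h4
    rw [hy'] at h3
    norm_num [abs_of_nonneg, abs_of_nonpos] at h3 h4
    nlinarith [hi y]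
  refine (Ultrafilter.eventually_or.1 h2).imp (fun h => ?_) fun h => ?_
  · refine Ideal.Quotient.eq_zero_iff_mem.2 fun ε hε => ?_
    rw [← hf, le_coe]
    filter_upwards [h, h1 (ε / 2) (half_pos hε)] with i h h'
    refine (ContinuousMap.norm_le _ hε.le).2 fun y => ?_
    have h3 := (neg_le_abs _).trans (Complex.abs_re_le_norm (f i y - 1))
    rw [Complex.sub_re, Complex.one_re] at h3
    nlinarith [h y, h' y, norm_nonneg (f i y)]
  · rw [← map_one (Ideal.Quotient.mk _), Ideal.Quotient.eq]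
    intro ε hε
    change Le (g.1 - 1) ε
    rw [← hf, ← Germ.coe_one, ← Germ.coe_sub, le_coe]
    filter_upwards [h, h1 (ε / 2) (half_pos hε)] with i h h'
    refine (ContinuousMap.norm_le _ hε.le).2 fun y => ?_
    have h3 := Complex.re_le_norm (f i y)
    change ‖f i y - 1‖ ≤ ε
    nlinarith [h y, h' y, norm_nonneg (f i y - 1)]

end Fn

end Pool.Agent.MP_2023ef_al.H81
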