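import Pool.Agent.MP_2023ef_al.h81.Obs

/-!
A Bezout domain with complex residue fields and an obstruction of infinite order.
-/

set_option autoImplicit false

open Filter Topology Matrix

namespace Pool.Agent.MP_2023ef_al.H81

abbrev Ix : Type := Finset (Tm × Tm) × ℕ

instance : (atTop : Filter Ix).NeBot := by
  classical
  infer_instance

/-- an ultrafilter of large finite sets of conditions -/
noncomputable def uf : Ultrafilter Ix := Ultrafilter.of atTop

theorem uf_ev (j : Tm × Tm) (m : ℕ) : ∀ᶠ i in (uf : Filter Ix), j ∈ i.1 ∧ m ≤ i.2 :=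
  Ultrafilter.of_le atTop ((eventually_ge_atTop (({j}, m) : Ix)).mono fun _ hi =>
    ⟨hi.1 (Finset.mem_singleton_self j), hi.2⟩)

theorem exists_hom : ∃ ψ : Ix → Rg →+* C(Sph, ℂ),
    (∀ i c, ψ i (MvPolynomial.C c) = ContinuousMap.const _ c) ∧
    (∀ i q, ‖ψ i (MvPolynomial.X (.inl q)) - hopfC q.1 q.2‖ ≤ 1 / (i.2 + 1)) ∧
    ∀ i, ∀ j ∈ i.1, IsRelPrime j.1.ev j.2.ev → (∀ β, ‖ψ i (MvPolynomial.X (.inr (j, β)))‖ ≤ 2) ∧
      (∀ y, ‖ψ i j.1.ev y‖ < 2 * ‖ψ i (cmb j) y‖) ∧ ∀ y, ‖ψ i j.2.ev y‖ < 2 * ‖ψ i (cmb j) y‖ := by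
  choose T hT hs using fun i : Ix => exists_assign i.1 (ε := 1 / (i.2 + 1)) (by positivity)
  let ψ : Ix → Rg →+* C(Sph, ℂ) := fun i =>
    { toFun := fun p => ⟨fun y => MvPolynomial.eval (T i y.1) p,
        (contDiff_eval (hT i) p).continuous.comp continuous_subtype_val⟩
      map_one' := ContinuousMap.ext fun y => map_one (MvPolynomial.eval (T i y.1))
      map_mul' := fun p q => ContinuousMap.ext fun y => map_mul (MvPolynomial.eval (T i y.1)) p q
      map_zero' := ContinuousMap.ext fun y => map_zero (MvPolynomial.eval (T i y.1))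
      map_add' := fun p q => ContinuousMap.ext fun y => map_add (MvPolynomial.eval (T i y.1)) p q }
  have hX : ∀ i k y, ψ i (MvPolynomial.X k) y = T i y.1 k := fun i k y => MvPolynomial.eval_X _
  refine ⟨ψ, fun i c => ContinuousMap.ext fun y => MvPolynomial.eval_C _, fun i q =>
    (ContinuousMap.norm_le _ (by positivity)).2 fun y => ?_, fun i j hj h => ⟨fun β =>
      (ContinuousMap.norm_le _ zero_le_two).2 fun y => ?_,
      fun y => ((hs i y.1 y.2).2 j hj h).2.2.1, fun y => ((hs i y.1 y.2).2 j hj h).2.2.2⟩⟩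
  · rw [ContinuousMap.sub_apply, hX]
    exact ((hs i y.1 y.2).1 q).le
  · rw [hX]
    cases β
    exacts [((hs i y.1 y.2).2 j hj h).1.le, ((hs i y.1 y.2).2 j hj h).2.1.le]

theorem blk_map {A Q : Type} [CommRing A] [CommRing Q] (χ : A →+* Q)
    (e : Matrix (Fin 2) (Fin 2) A) (n k : ℕ) : (blk e n k).map χ = blk (e.map χ) n k := by
  rw [blk, fromBlocks_map, blockDiagonal_map _ _ (map_zero χ), Matrix.map_zero _ (map_zero χ),
    Matrix.map_zero _ (map_zero χ), Matrix.map_one _ (map_zero χ) (map_one χ)]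

theorem main : ∃ (A : Type) (_ : CommRing A) (_ : IsDomain A) (_ : IsBezout A) (_ : Algebra ℂ A),
    (∀ m : Ideal A, m.IsMaximal → Function.Surjective (algebraMap ℂ (A ⧸ m))) ∧
    ∃ M : Matrix (Fin 2) (Fin 2) A,
      (∀ C D : Matrix (Fin 2) (Fin 2) A, IsUnit C → IsUnit D → C * M * D ≠ Mᵀ) ∧
      ∀ n k : ℕ, n ≠ 0 → ∀ C D : Matrix ((Fin 2 × Fin n) ⊕ Fin k) ((Fin 2 × Fin n) ⊕ Fin k) A,
        IsUnit C → IsUnit D →
          ¬(C * fromBlocks (blockDiagonal fun _ : Fin n => M) 0 0 1 * D).IsDiag := by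
  obtain ⟨ψ, h1, h2, h3⟩ := exists_hom
  have : Nonempty Sph := ⟨hem true 0⟩
  have := sph_conn
  let G := Germ (uf : Filter Ix) C(Sph, ℂ)
  let B := Bd (uf : Filter Ix) C(Sph, ℂ)
  let φ : Rg →+* G := (Germ.coeRingHom _).comp (RingHom.pi ψ)
  have hφ : ∀ p, φ p = ((fun i => ψ i p : Ix → C(Sph, ℂ)) : G) := fun p => rfl
  have hdom : IsDomain (Fr φ B) := fr_isDomain φ B
  have hbez : IsBezout (Fr φ B) := fr_isBezout φ B fun a b hab => by
    obtain ⟨a, rfl⟩ := ev_surj a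
    obtain ⟨b, rfl⟩ := ev_surj b
    have h := (uf_ev (a, b) 0).mono fun i hi => h3 i _ hi.1 hab
    refine ⟨_, _, ⟨2, le_coe.2 (h.mono fun i hi => hi.1 false)⟩,
      ⟨2, le_coe.2 (h.mono fun i hi => hi.1 true)⟩,
      ((fun i => Ring.inverse (ψ i (cmb (a, b))) : Ix → C(Sph, ℂ)) : G),
      Germ.coe_eq.2 (h.mono fun i hi => (inv_bound zero_le_two hi.2.1).1),
      ⟨2, le_coe.2 (h.mono fun i hi => (inv_bound zero_le_two hi.2.1).2)⟩,
      ⟨2, le_coe.2 (h.mono fun i hi => (inv_bound zero_le_two hi.2.2).2)⟩⟩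
  have hC : ∀ c, val φ (algebraMap Rg _ (MvPolynomial.C c)) =
      ((fun _ => ContinuousMap.const _ c : Ix → C(Sph, ℂ)) : G) := fun c => by
    simp only [val_alg, hφ, h1]
  let κ : ℂ →+* Fr φ B := ((algebraMap Rg _).comp MvPolynomial.C).codRestrict _ fun c =>
    ⟨_, (hC c).symm ▸ le_const _⟩
  let χ₀ : Fr φ B →+* B := ((val φ).comp (Fr φ B).subtype).codRestrict _ fun a => a.2
  let π := Ideal.Quotient.mk (Nul (uf : Filter Ix) C(Sph, ℂ))
  let χ := π.comp χ₀
  have hM : ∀ q : Fin 2 × Fin 2, ∀ ε, 0 < ε → Le (val φ (algebraMap Rg _ (MvPolynomial.X (.inl q))) -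
      (cst _ _ (hopfC q.1 q.2)).1) ε := fun q ε hε => by
    obtain ⟨m, hm⟩ := exists_nat_one_div_lt hε
    rw [val_alg]
    refine le_coe.2 ((uf_ev (.c 0, .c 0) m).mono fun i hi => (h2 i q).trans (le_trans ?_ hm.le))
    exact one_div_le_one_div_of_le (by positivity) (by exact_mod_cast Nat.succ_le_succ hi.2)
  let M : Matrix (Fin 2) (Fin 2) (Fr φ B) := fun i j =>
    ⟨algebraMap Rg _ (MvPolynomial.X (.inl (i, j))), by
      have h := B.add_mem ⟨1, hM (i, j) 1 one_pos⟩ (cst _ _ (hopfC i j)).2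
      rwa [sub_add_cancel] at h⟩
  have hMχ : M.map χ = hopfC.map (π.comp (cst _ _)) := by
    ext i j
    exact Ideal.Quotient.eq.2 (hM (i, j))
  have hnt : Nontrivial (B ⧸ Nul (uf : Filter Ix) C(Sph, ℂ)) :=
    Ideal.Quotient.nontrivial_iff.2 ((Ideal.ne_top_iff_one _).2 fun h => by
      obtain ⟨i, hi⟩ := (le_coe (f := fun _ => (1 : C(Sph, ℂ)))).1 (h (1 / 2) one_half_pos) |>.exists
      norm_num at hi)
  have hch : CharZero (B ⧸ Nul (uf : Filter Ix) C(Sph, ℂ)) :=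
    charZero_of_injective_ringHom (χ.comp κ).injective
  have he : M.map χ * M.map χ = M.map χ := by rw [hMχ, ← Matrix.map_mul, hopfC_idem]
  have ht : M.map χ 0 0 + M.map χ 1 1 = 1 := by
    rw [hMχ, map_apply, map_apply, ← map_add, hopfC_trace, map_one]
  let := κ.toAlgebra
  refine ⟨Fr φ B, inferInstance, hdom, hbez, inferInstance, fun m hm x => ?_, M,
    fun C D hC hD h => ?_, fun n k hn C D hC hD h => hn ?_⟩
  · obtain ⟨x, rfl⟩ := Ideal.Quotient.mk_surjective x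
    obtain ⟨c, hc⟩ := residue ((val φ).comp (Fr φ B).subtype) (fun a => a.2)
      (fun a g hg h => fr_isUnit φ B hg h) κ hC hm x
    exact ⟨c, (Ideal.Quotient.eq.2 hc).symm⟩
  · have h' := sec_of_transpose (C := C.map χ) (D := D.map χ) he ht (hC.map χ.mapMatrix) (by
      rw [← Matrix.map_mul, ← Matrix.map_mul, h, transpose_map])
    rw [hMχ] at h'
    exact two_ne_zero (no_sec h')
  · have h' := sec_of_diag (C := C.map χ) (D := D.map χ) (idem_trivial (Y := Sph) uf) he ht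
      (hC.map χ.mapMatrix) (hD.map χ.mapMatrix) (by
        rw [← blk_map, ← Matrix.map_mul, ← Matrix.map_mul]
        exact h.map (map_zero χ))
    rw [hMχ] at h'
    exact no_sec h'

end Pool.Agent.MP_2023ef_al.H81
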