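import Pool.Agent.MP_2023ef_al.h81.Tower
import Pool.Agent.MP_2023ef_al.h81.Germ

/-!
The obstruction: powers of the tautological line bundle on the sphere have no nowhere vanishing
section, even approximately.
-/

set_option autoImplicit false

open Filter Topology Matrix ComplexConjugate

namespace Pool.Agent.MP_2023ef_al.H81

section Alg

variable {Q : Type} [CommRing Q]

/-- a generator of the `n`-th power of the line, in two charts -/
def Sec (e : Matrix (Fin 2) (Fin 2) Q) (m n : ℕ) : Prop :=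
  ∃ α β a b : Q, e 0 0 ^ m = a * α ∧ e 1 1 ^ m = b * β ∧ e 0 0 ^ n * β = e 1 0 ^ n * α

theorem free_of_diag [CharZero Q] (hQ : ∀ e : Q, e * e = e → e = 0 ∨ e = 1) {ι κ : Type}
    [Fintype ι] [DecidableEq ι] [Fintype κ] [DecidableEq κ] {P C D : Matrix ι ι Q}
    (hP : P * P = P) (ht : P.trace = Fintype.card κ) (hC : IsUnit C) (hD : IsUnit D)
    (hd : (C * P * D).IsDiag) : ∃ (W : Matrix ι κ Q) (X : Matrix κ ι Q), P * W = W ∧ X * W = 1 := by
  classical
  obtain ⟨C, rfl⟩ := hC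
  obtain ⟨D, rfl⟩ := hD
  obtain ⟨δ, hδ⟩ : ∃ δ, diagonal δ = C.val * P * D.val := ⟨_, hd.diagonal_diag⟩
  let G : Matrix ι ι Q := D.inv * C.inv
  have h1 : diagonal δ * G = C.val * P * C.inv := by
    rw [hδ, Matrix.mul_assoc, ← Matrix.mul_assoc D.val, D.val_inv, Matrix.one_mul]
  have h2 : diagonal δ * G * diagonal δ = diagonal δ := by
    rw [h1, hδ, ← Matrix.mul_assoc, ← Matrix.mul_assoc, Matrix.mul_assoc _ C.inv, C.inv_val,
      Matrix.mul_one, Matrix.mul_assoc _ P P, hP]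
  have h3 : ∀ i, δ i * G i i = 0 ∨ δ i * G i i = 1 := fun i => hQ _ (by
    have := congrFun (congrFun h2 i) i
    rw [mul_diagonal, diagonal_mul, diagonal_apply_eq] at this
    rw [← mul_assoc, this])
  have h4 : ∑ i, δ i * G i i = Fintype.card κ := by
    rw [← ht, ← Matrix.mul_one P, ← C.inv_val, ← Matrix.mul_assoc, trace_mul_comm,
      ← Matrix.mul_assoc, ← h1]
    simp only [trace, diag_apply, diagonal_mul]
  have h5 : Fintype.card κ = Fintype.card {i // δ i * G i i = 1} := by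
    refine Nat.cast_injective (R := Q) ?_
    rw [← h4, Fintype.card_subtype, Finset.card_filter, Nat.cast_sum]
    refine Finset.sum_congr rfl fun i _ => ?_
    rcases h3 i with h | h <;> simp [h]
  let e := Fintype.equivOfCardEq h5
  refine ⟨(P * D.val).submatrix id fun c => (e c).1,
    (diagonal (fun i => G i i) * C.val).submatrix (fun c => (e c).1) id, ?_, ?_⟩
  · rw [← submatrix_id_id P, ← submatrix_mul _ _ _ _ _ Function.bijective_id, submatrix_id_id,
      ← Matrix.mul_assoc, hP]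
  · rw [← submatrix_mul _ _ _ _ _ Function.bijective_id, Matrix.mul_assoc,
      ← Matrix.mul_assoc C.val, ← hδ, diagonal_mul_diagonal]
    ext c c'
    by_cases h : c = c'
    · rw [h, submatrix_apply, diagonal_apply_eq, one_apply_eq, mul_comm, (e c').2]
    · rw [submatrix_apply, one_apply_ne h, diagonal_apply_ne]
      exact fun h' => h (e.injective (Subtype.ext h'))

/-- `n` copies of `e` and an identity block -/
abbrev blk (e : Matrix (Fin 2) (Fin 2) Q) (n k : ℕ) :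
    Matrix ((Fin 2 × Fin n) ⊕ Fin k) ((Fin 2 × Fin n) ⊕ Fin k) Q :=
  fromBlocks (blockDiagonal fun _ : Fin n => e) 0 0 1

theorem chart {n k : ℕ} {W : Matrix ((Fin 2 × Fin n) ⊕ Fin k) (Fin n ⊕ Fin k) Q}
    {X : Matrix (Fin n ⊕ Fin k) ((Fin 2 × Fin n) ⊕ Fin k) Q} (h : X * W = 1) {a a' : Fin 2}
    (hs : ∀ f : Fin 2 → Q, ∑ b, f b = f a + f a') {t t' : Q}
    (ht : ∀ j c, t * W (.inl (a', j)) c = t' * W (.inl (a, j)) c) :
    ∃ z, t ^ (n + k) = z * (W.submatrix (Sum.map (fun j => (a, j)) id) id).det := by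
  refine ⟨(Matrix.of fun c => Sum.elim (fun j => t * X c (.inl (a, j)) + t' * X c (.inl (a', j)))
    fun i => t * X c (.inr i)).det, ?_⟩
  have e : t ^ (n + k) = (t • (X * W)).det := by simp [h]
  rw [e, ← det_mul]
  congr 1
  ext c c'
  simp only [Matrix.smul_apply, mul_apply, Fintype.sum_sum_type, Fintype.sum_prod_type, hs, smul_eq_mul,
    of_apply, Sum.elim_inl, Sum.elim_inr, submatrix_apply, Sum.map_inl, Sum.map_inr, id,
    mul_add, Finset.mul_sum, ← Finset.sum_add_distrib, mul_assoc]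
  congr 1
  refine Finset.sum_congr rfl fun j _ => ?_
  linear_combination X c (.inl (a', j)) * ht j c'

theorem sec_of_diag [CharZero Q] (hQ : ∀ e : Q, e * e = e → e = 0 ∨ e = 1)
    {e : Matrix (Fin 2) (Fin 2) Q} (he : e * e = e) (ht : e 0 0 + e 1 1 = 1) {n k : ℕ}
    {C D : Matrix ((Fin 2 × Fin n) ⊕ Fin k) ((Fin 2 × Fin n) ⊕ Fin k) Q} (hC : IsUnit C)
    (hD : IsUnit D) (hd : (C * blk e n k * D).IsDiag) : Sec e (n + k) n := by
  obtain ⟨W, X, h1, h2⟩ := free_of_diag hQ (κ := Fin n ⊕ Fin k) (P := blk e n k)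
    (by simp [fromBlocks_multiply, ← blockDiagonal_mul, he])
    (by simp [trace, Fintype.sum_prod_type, blockDiagonal_apply, ← mul_add, ht]) hC hD hd
  have h3 : ∀ a j c, e a 0 * W (.inl (0, j)) c + e a 1 * W (.inl (1, j)) c = W (.inl (a, j)) c :=
    fun a j c => by
      simpa [mul_apply, Fintype.sum_prod_type, blockDiagonal_apply] using
        congrFun (congrFun h1 (.inl (a, j))) c
  have h4 : ∀ j c, e 0 0 * W (.inl (1, j)) c = e 1 0 * W (.inl (0, j)) c := fun j c => by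
    linear_combination W (.inl (1, j)) c * ht - h3 1 j c
  have h5 : ∀ j c, e 1 1 * W (.inl (0, j)) c = e 0 1 * W (.inl (1, j)) c := fun j c => by
    linear_combination W (.inl (0, j)) c * ht - h3 0 j c
  obtain ⟨a, ha⟩ := chart h2 Fin.sum_univ_two h4
  obtain ⟨b, hb⟩ := chart h2 (fun f => (Fin.sum_univ_two f).trans (add_comm _ _)) h5
  refine ⟨_, _, a, b, ha, hb, ?_⟩
  have h6 : diagonal (Sum.elim (fun _ => e 0 0) fun _ => 1) *
      W.submatrix (Sum.map (fun j => (1, j)) id) id =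
      diagonal (Sum.elim (fun _ => e 1 0) fun _ => 1) *
        W.submatrix (Sum.map (fun j => (0, j)) id) id := by
    ext (j | i) c
    · simpa using h4 j c
    · simp
  simpa using congrArg det h6

theorem sec_of_transpose {e C D : Matrix (Fin 2) (Fin 2) Q} (he : e * e = e)
    (ht : e 0 0 + e 1 1 = 1) (hC : IsUnit C) (h : C * e * D = eᵀ) : Sec e 2 2 := by
  obtain ⟨C, rfl⟩ := hC
  rw [Matrix.mul_assoc] at h
  have h0 : e * D = C.inv * eᵀ := by rw [← h, ← Matrix.mul_assoc, C.inv_val, Matrix.one_mul]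
  have h1 : e * (e * D) = e * D := by rw [← Matrix.mul_assoc, he]
  generalize e * D = w at h h0 h1
  have hd : e 0 0 * e 1 1 = e 0 1 * e 1 0 := by
    have := congrFun (congrFun he 0) 0
    rw [mul_apply, Fin.sum_univ_two] at this
    linear_combination e 0 0 * ht - this
  have a := fun i j => congrFun (congrFun h i) j
  have b := fun i j => congrFun (congrFun h0 i) j
  have c := fun i j => congrFun (congrFun h1 i) j
  simp only [mul_apply, Fin.sum_univ_two, transpose_apply] at a b c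
  refine ⟨w 0 0, w 1 1, e 0 0 * C.val 0 0 + e 1 0 * C.val 0 1,
    e 0 1 * C.val 1 0 + e 1 1 * C.val 1 1, ?_, ?_, ?_⟩
  · linear_combination (-e 0 0) * a 0 0 + C.val 0 1 * (w 1 0 * ht - c 1 0)
  · linear_combination (-e 1 1) * a 1 1 + C.val 1 0 * (w 0 1 * ht - c 0 1)
  · linear_combination e 0 0 * (e 0 0 * b 1 1 - e 1 0 * b 1 0 + C.inv 1 1 * hd) +
      e 1 0 * (w 1 0 * ht - c 1 0)

end Alg

theorem winding {α β : ℂ → ℂ} (hα : Continuous α) (hβ : Continuous β) (h0 : ∀ w, α w ≠ 0)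
    (h0' : ∀ w, β w ≠ 0) {n : ℕ} (h : ∀ w, ‖w‖ = 1 → ‖β w - w ^ n * α w‖ < ‖α w‖) : n = 0 := by
  have lift : ∀ {f : ℂ → ℂ}, Continuous f → (∀ w, f w ≠ 0) →
      ∃ F : C(ℂ, ℂ), ∀ w, Complex.exp (F w) = f w := fun {f} hf h => by
    obtain ⟨F, ⟨-, hF⟩, -⟩ := Complex.isCoveringMapOn_exp.existsUnique_continuousMap_lifts
      ⟨f, hf⟩ (a₀ := 0) (Complex.exp_log (h 0)) h
    exact ⟨F, congrFun hF⟩
  obtain ⟨a, ha⟩ := lift hα h0
  obtain ⟨b, hb⟩ := lift hβ h0'
  let c : ℝ → ℂ := fun θ => Complex.exp (θ * Complex.I)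
  have hc : Continuous c := by fun_prop
  have h1 : ∀ θ, c θ ^ n * α (c θ) ≠ 0 := fun θ =>
    mul_ne_zero (pow_ne_zero _ (Complex.exp_ne_zero _)) (h0 _)
  let q : ℝ → ℂ := fun θ => β (c θ) / (c θ ^ n * α (c θ))
  have hq : ∀ θ, q θ ∈ Complex.slitPlane := fun θ => by
    rw [← add_sub_cancel 1 (q θ)]
    refine Complex.mem_slitPlane_of_norm_lt_one ?_
    rw [div_sub_one (h1 θ), norm_div, div_lt_one (norm_pos_iff.2 (h1 θ)), norm_mul, norm_pow,
      Complex.norm_exp_ofReal_mul_I, one_pow, one_mul]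
    exact h _ (Complex.norm_exp_ofReal_mul_I θ)
  let F : ℝ → ℂ := fun θ => b (c θ) - a (c θ) - n * (θ * Complex.I) - Complex.log (q θ)
  have hF : Continuous F := Continuous.sub (by fun_prop)
    (((hβ.comp hc).div ((hc.pow n).mul (hα.comp hc)) h1).clog hq)
  have e : ∀ θ, Complex.exp (F θ) = 1 := fun θ => by
    rw [Complex.exp_sub, Complex.exp_sub, Complex.exp_sub, ha, hb, Complex.exp_nat_mul,
      Complex.exp_log (Complex.slitPlane_ne_zero (hq θ)), div_div (β _), mul_comm (α _)]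
    exact div_self (Complex.slitPlane_ne_zero (hq θ))
  have h2 := Complex.isCoveringMap_exp.const_of_comp hF
    (fun θ θ' => Subtype.ext ((e θ).trans (e θ').symm)) 0 (2 * Real.pi)
  have h3 : c (2 * Real.pi) = c 0 := by simp [c]
  simp only [F, q, h3] at h2
  have h4 : (n : ℂ) * (2 * Real.pi * Complex.I) = 0 := by
    push_cast at h2
    linear_combination h2
  exact_mod_cast (mul_eq_zero.1 h4).resolve_right Complex.two_pi_I_ne_zero

/-- the retraction onto the disc -/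
noncomputable def rt (w : ℂ) : ℂ := w / (max 1 ‖w‖ : ℝ)

theorem rt_le (w : ℂ) : ‖rt w‖ ^ 2 ≤ 1 := by
  have h : 0 < max 1 ‖w‖ := lt_max_of_lt_left one_pos
  refine pow_le_one₀ (norm_nonneg _) ?_
  rw [rt, norm_div, Complex.norm_real, Real.norm_of_nonneg h.le, div_le_one h]
  exact le_max_right _ _

theorem rt_eq {w : ℂ} (h : ‖w‖ ≤ 1) : rt w = w := by simp [rt, h]

/-- the two hemispheres -/
noncomputable def hem (σ : Bool) (w : ℂ) : Sph :=
  ⟨(rt w, (if σ then 1 else -1) * √(1 - ‖rt w‖ ^ 2)), by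
    change ‖rt w‖ ^ 2 + ((if σ then 1 else -1) * √(1 - ‖rt w‖ ^ 2)) ^ 2 = 1
    rw [mul_pow, Real.sq_sqrt (sub_nonneg.2 (rt_le w))]
    cases σ <;> simp⟩

theorem hem_cont (σ : Bool) : Continuous (hem σ) := by
  have h : Continuous rt := continuous_id.div (by fun_prop) fun w => by
    exact_mod_cast (lt_max_of_lt_left one_pos : 0 < max 1 ‖w‖).ne'
  exact Continuous.subtype_mk (by fun_prop) _

theorem hem_eq (σ : Bool) {w : ℂ} (h : ‖w‖ = 1) : (hem σ w).1 = (w, 0) := by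
  simp [hem, rt_eq h.le, h]

theorem sph_conn : PreconnectedSpace Sph := by
  constructor
  have e : (Set.univ : Set Sph) = Set.range (hem true) ∪ Set.range (hem false) := by
    refine (Set.eq_univ_of_forall fun y => ?_).symm
    have h : ‖y.1.1‖ ^ 2 + y.1.2 ^ 2 = 1 := y.2
    have h1 : rt y.1.1 = y.1.1 := rt_eq (by nlinarith [norm_nonneg y.1.1, sq_nonneg y.1.2])
    have h2 : √(1 - ‖y.1.1‖ ^ 2) = |y.1.2| := by
      rw [← Real.sqrt_sq_eq_abs, ← h, add_sub_cancel_left]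
    rcases le_total 0 y.1.2 with h3 | h3
    · exact Or.inl ⟨y.1.1, Subtype.ext (by simp [hem, h1, h2, abs_of_nonneg h3])⟩
    · exact Or.inr ⟨y.1.1, Subtype.ext (by simp [hem, h1, h2, abs_of_nonpos h3])⟩
  rw [e]
  refine (isPreconnected_range (hem_cont true)).union (hem true 1) ⟨1, rfl⟩
    ⟨1, Subtype.ext ?_⟩ (isPreconnected_range (hem_cont false))
  rw [hem_eq _ norm_one, hem_eq _ norm_one]

instance : CompactSpace Sph := isCompact_iff_compactSpace.1 isCompact_Sph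

/-- the projection as a matrix of functions -/
noncomputable def hopfC : Matrix (Fin 2) (Fin 2) C(Sph, ℂ) := fun i j =>
  ⟨fun y => hopf y.1 i j, (contDiff_hopf i j).continuous.comp continuous_subtype_val⟩

theorem hopfC_trace : hopfC 0 0 + hopfC 1 1 = 1 := by
  ext y
  simp only [hopfC, hopf, ContinuousMap.add_apply, ContinuousMap.coe_mk, ContinuousMap.one_apply,
    of_apply, cons_val', cons_val_zero, cons_val_one, cons_val_fin_one]
  ring

theorem hopfC_idem : hopfC * hopfC = hopfC := by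
  ext i j y
  have h : y.1.1 * conj y.1.1 + (y.1.2 : ℂ) ^ 2 = 1 := by
    rw [Complex.mul_conj']
    exact_mod_cast (y.2 : ‖y.1.1‖ ^ 2 + y.1.2 ^ 2 = 1)
  rw [mul_apply, Fin.sum_univ_two]
  change hopf y.1 i 0 * hopf y.1 0 j + hopf y.1 i 1 * hopf y.1 1 j = hopf y.1 i j
  fin_cases i <;> fin_cases j <;> simp [hopf]
  · linear_combination (1 / 4) * h
  · ring
  · ring
  · linear_combination (1 / 4) * h

theorem no_sec_fn {m n : ℕ} {α β a b : C(Sph, ℂ)} {K η : ℝ} (hK : 0 < K) (ha : ‖a‖ ≤ K)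
    (hb : ‖b‖ ≤ K) (hη : η * (1 + 2 ^ n * K) < 1 / 2 ^ m)
    (h1 : ‖hopfC 0 0 ^ m - a * α‖ ≤ η) (h2 : ‖hopfC 1 1 ^ m - b * β‖ ≤ η)
    (h3 : ‖hopfC 0 0 ^ n * β - hopfC 1 0 ^ n * α‖ ≤ η) : n = 0 := by
  have hη0 : 0 ≤ η := (norm_nonneg _).trans h1
  have low : ∀ {p a α : C(Sph, ℂ)}, ‖a‖ ≤ K → ‖p ^ m - a * α‖ ≤ η → ∀ y, 1 / 2 ≤ ‖p y‖ →
      2 ^ n * η < ‖α y‖ := fun {p a α} ha h y hy => by
    have t1 : ‖p y ^ m - a y * α y‖ ≤ η := ((p ^ m - a * α).norm_coe_le_norm y).trans h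
    have t2 := norm_sub_norm_le (p y ^ m) (a y * α y)
    have t3 := pow_le_pow_left₀ (by norm_num) hy m
    have t4 := mul_le_mul_of_nonneg_right ((a.norm_coe_le_norm y).trans ha) (norm_nonneg (α y))
    rw [norm_pow, norm_mul] at t2
    rw [_root_.one_div_pow] at t3
    refine lt_of_mul_lt_mul_left ?_ hK.le
    linarith
  have half : ∀ t : ℝ, 0 ≤ t → 1 / 2 ≤ ‖((1 : ℂ) + t) / 2‖ := fun t ht => by
    refine le_trans ?_ (Complex.re_le_norm _)
    simp only [Complex.div_ofNat_re, Complex.add_re, Complex.one_re, Complex.ofReal_re]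
    linarith
  have u1 : ∀ w, 2 ^ n * η < ‖α (hem true w)‖ := fun w =>
    low ha h1 _ (half _ (by simp [hem]))
  have u2 : ∀ w, 2 ^ n * η < ‖β (hem false w)‖ := fun w => low hb h2 _ (by
    simpa [hopfC, hopf, hem] using half _ (Real.sqrt_nonneg (1 - ‖rt w‖ ^ 2)))
  have hp : 0 ≤ 2 ^ n * η := by positivity
  refine winding (α.continuous.comp (hem_cont true)) (β.continuous.comp (hem_cont false))
    (fun w => norm_pos_iff.1 (hp.trans_lt (u1 w))) (fun w => norm_pos_iff.1 (hp.trans_lt (u2 w)))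
    fun w hw => lt_of_le_of_lt ?_ (u1 w)
  have e : hem false w = hem true w := Subtype.ext (by rw [hem_eq _ hw, hem_eq _ hw])
  have t1 : ‖hopf (hem true w).1 0 0 ^ n * β (hem true w) -
      hopf (hem true w).1 1 0 ^ n * α (hem true w)‖ ≤ η :=
    ((hopfC 0 0 ^ n * β - hopfC 1 0 ^ n * α).norm_coe_le_norm _).trans h3
  have e2 : β (hem true w) - w ^ n * α (hem true w) = 2 ^ n * (hopf (w, 0) 0 0 ^ n *
      β (hem true w) - hopf (w, 0) 1 0 ^ n * α (hem true w)) := by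
    simp only [hopf, of_apply, cons_val', cons_val_zero, cons_val_one, cons_val_fin_one,
      Complex.ofReal_zero, add_zero, div_pow, one_pow]
    field_simp
  rw [hem_eq _ hw] at t1
  simp only [Function.comp_apply, e, e2, norm_mul, norm_pow, Complex.norm_ofNat]
  exact mul_le_mul_of_nonneg_left t1 (by positivity)

theorem no_sec {I : Type} {l : Filter I} [l.NeBot] {m n : ℕ}
    (h : Sec (hopfC.map ((Ideal.Quotient.mk (Nul l C(Sph, ℂ))).comp (cst l _))) m n) : n = 0 := by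
  obtain ⟨α, β, a, b, h1, h2, h3⟩ := h
  obtain ⟨α, rfl⟩ := Ideal.Quotient.mk_surjective α
  obtain ⟨β, rfl⟩ := Ideal.Quotient.mk_surjective β
  obtain ⟨a, rfl⟩ := Ideal.Quotient.mk_surjective a
  obtain ⟨b, rfl⟩ := Ideal.Quotient.mk_surjective b
  simp only [map_apply, RingHom.comp_apply, ← map_pow, ← map_mul, Ideal.Quotient.eq] at h1 h2 h3
  obtain ⟨K, hK⟩ := a.2
  obtain ⟨L, hL⟩ := b.2
  obtain ⟨α', hα⟩ := exists_rep α.1
  obtain ⟨β', hβ⟩ := exists_rep β.1
  obtain ⟨a', ha⟩ := exists_rep a.1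
  obtain ⟨b', hb⟩ := exists_rep b.1
  have hM : 0 < max 1 (max K L) := lt_max_of_lt_left one_pos
  have hη : 0 < 1 / 2 ^ (m + 1) / (1 + 2 ^ n * max 1 (max K L)) := by positivity
  have k1 : Le ((cst l _ (hopfC 0 0 ^ m)).1 - a.1 * α.1) _ := h1 _ hη
  have k2 : Le ((cst l _ (hopfC 1 1 ^ m)).1 - b.1 * β.1) _ := h2 _ hη
  have k3 : Le ((cst l _ (hopfC 0 0 ^ n)).1 * β.1 - (cst l _ (hopfC 1 0 ^ n)).1 * α.1) _ := h3 _ hη
  simp only [cst_val, ← hα, ← hβ, ← ha, ← hb, ← Germ.coe_mul, ← Germ.coe_sub, le_coe]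
    at k1 k2 k3 hK hL
  obtain ⟨i, t1, t2, t3, t4, t5⟩ := (k1.and (k2.and (k3.and (hK.and hL)))).exists
  refine no_sec_fn hM (t4.trans (by simp)) (t5.trans (by simp)) ?_ t1 t2 t3
  rw [div_mul_cancel₀ _ (by positivity)]
  exact one_div_lt_one_div_of_lt (by positivity) (pow_lt_pow_right₀ one_lt_two (Nat.lt_succ_self m))

end Pool.Agent.MP_2023ef_al.H81
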