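import Mathlib

/-!
Diagonal reduction over Bezout domains whose field of fractions has a valuation, henselian for
quadratics, with a residue field that has finitely many separable quadratic extensions.
-/

set_option autoImplicit false

open Matrix Polynomial IntermediateField

namespace Pool.Agent.MP_2023ef_al.H81

section Fld

variable (K : Type*) [Field K]

/-- constant terms `η` of the separable polynomials `X ^ 2 - X + η` -/
def Gr : Type _ := {η : K // 1 - 4 * η ≠ 0}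

instance : CommGroup (Gr K) where
  mul a b := ⟨a.1 + b.1 - 4 * a.1 * b.1, fun h => mul_ne_zero a.2 b.2 (by linear_combination h)⟩
  one := ⟨0, by simp⟩
  inv a := ⟨-a.1 / (1 - 4 * a.1), fun h => by
    have := a.2
    field_simp at h
    exact one_ne_zero (α := K) (by linear_combination h)⟩
  mul_assoc a b c := Subtype.ext (by
    change a.1 + b.1 - 4 * a.1 * b.1 + c.1 - 4 * (a.1 + b.1 - 4 * a.1 * b.1) * c.1 =
      a.1 + (b.1 + c.1 - 4 * b.1 * c.1) - 4 * a.1 * (b.1 + c.1 - 4 * b.1 * c.1)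
    ring)
  one_mul a := Subtype.ext (by
    change 0 + a.1 - 4 * 0 * a.1 = a.1
    ring)
  mul_one a := Subtype.ext (by
    change a.1 + 0 - 4 * a.1 * 0 = a.1
    ring)
  inv_mul_cancel a := Subtype.ext (by
    have := a.2
    change -a.1 / (1 - 4 * a.1) + a.1 - 4 * (-a.1 / (1 - 4 * a.1)) * a.1 = 0
    linear_combination div_mul_cancel₀ (-a.1) this)
  mul_comm a b := Subtype.ext (by
    change a.1 + b.1 - 4 * a.1 * b.1 = b.1 + a.1 - 4 * b.1 * a.1
    ring)

/-- the polynomials with a root -/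
def Spl : Subgroup (Gr K) where
  carrier := {a | ∃ z, z ^ 2 - z + a.1 = 0}
  mul_mem' := fun {a b} ⟨z, hz⟩ ⟨w, hw⟩ => ⟨z * w + (1 - z) * (1 - w), by
    change _ + (a.1 + b.1 - 4 * a.1 * b.1) = 0
    linear_combination (1 - 4 * b.1) * hz + (1 - 2 * z) ^ 2 * hw⟩
  one_mem' := ⟨0, by
    change _ + (0 : K) = 0
    ring⟩
  inv_mem' := fun {a} ⟨z, hz⟩ => ⟨z * (2 * z - 1) / (1 - 4 * a.1), by
    have := a.2
    change _ + -a.1 / (1 - 4 * a.1) = 0
    field_simp
    linear_combination (4 * z ^ 2 - (1 - 4 * a.1)) * hz⟩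

variable {K}

theorem mk_eq {a b : Gr K} {z : K} (h : z ^ 2 - z + (a.1 + b.1 - 4 * a.1 * b.1) = 0) :
    (a : Gr K ⧸ Spl K) = b := by
  have h1 : a * a ∈ Spl K := ⟨2 * a.1, by
    change _ + (a.1 + a.1 - 4 * a.1 * a.1) = 0
    ring⟩
  have h2 := mul_mem (inv_mem h1) (show a * b ∈ Spl K from ⟨z, h⟩)
  rw [_root_.mul_inv_rev, mul_assoc, inv_mul_cancel_left] at h2
  exact QuotientGroup.eq.2 h2

theorem finite_quot (h : {L : IntermediateField K (AlgebraicClosure K) |
    Module.finrank K L = 2 ∧ Algebra.IsSeparable K L}.Finite) : Finite (Gr K ⧸ Spl K) := by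
  have hm : ∀ η : K, (X ^ 2 - X + C η : K[X]).Monic := fun η => by monicity!
  have hd : ∀ η : K, (X ^ 2 - X + C η : K[X]).natDegree = 2 := fun η => by compute_degree!
  have h1 : ∀ η : K, ∃ ρ : AlgebraicClosure K, aeval ρ (X ^ 2 - X + C η : K[X]) = 0 := fun η =>
    IsAlgClosed.exists_aeval_eq_zero _ _ (natDegree_pos_iff_degree_pos.1 (two_pos.trans_eq (hd η).symm)).ne'
  choose ρ hρ using h1
  have h2 : ∀ η, ρ η ^ 2 - ρ η + algebraMap K _ η = 0 := fun η => by simpa using hρ η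
  have h3 : ∀ η, IsIntegral K (ρ η) := fun η => ⟨_, hm η, hρ η⟩
  have h4 : ∀ w : Gr K ⧸ Spl K, w ≠ 1 → ∀ z, z ^ 2 - z + w.out.1 ≠ 0 := fun w hw z hz =>
    hw (w.out_eq ▸ (QuotientGroup.eq_one_iff _).2 ⟨z, hz⟩)
  have h5 : ∀ w : Gr K ⧸ Spl K, w ≠ 1 → ∀ z, algebraMap K _ z ≠ ρ w.out.1 := fun w hw z hz =>
    h4 w hw z ((algebraMap K (AlgebraicClosure K)).injective (by simpa [hz] using h2 w.out.1))
  refine Set.finite_univ_iff.1 (((h.of_injOn (s := {w : Gr K ⧸ Spl K | w ≠ 1})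
    (f := fun w => K⟮ρ w.out.1⟯) (fun w hw => And.intro ?_ ?_) fun w hw w' hw' e => ?_).insert
    1).subset fun w _ => (eq_or_ne w 1).imp id id)
  · rw [adjoin.finrank (h3 _)]
    exact le_antisymm (hd w.out.1 ▸ natDegree_le_of_dvd (minpoly.dvd K _ (hρ _)) (hm _).ne_zero)
      ((minpoly.two_le_natDegree_iff (h3 _)).2 fun ⟨z, hz⟩ => h5 w hw z hz)
  · refine (isSeparable_adjoin_simple_iff_isSeparable K _).2
      (Separable.of_dvd ?_ (minpoly.dvd K _ (hρ _)))
    refine ⟨-4 * C (1 - 4 * w.out.1)⁻¹, (2 * X - 1) * C (1 - 4 * w.out.1)⁻¹, ?_⟩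
    have h6 := congrArg C (mul_inv_cancel₀ w.out.2)
    simp only [map_mul, map_sub, map_one, map_ofNat] at h6
    simp only [derivative_add, derivative_sub, derivative_X_pow, derivative_X, derivative_C,
      Nat.cast_ofNat, map_ofNat, Nat.add_one_sub_one]
    linear_combination h6
  · have h6 : ρ w'.out.1 ∈ Algebra.adjoin K {ρ w.out.1} := by
      rw [← adjoin_simple_toSubalgebra_of_isAlgebraic (h3 _).isAlgebraic]
      exact e.ge (mem_adjoin_simple_self K _)
    have h7 : ∀ x ∈ Algebra.adjoin K {ρ w.out.1},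
        ∃ α β : K, x = algebraMap K _ α + algebraMap K _ β * ρ w.out.1 := fun x hx => by
      induction hx using Algebra.adjoin_induction with
      | mem x hx => exact ⟨0, 1, by simpa using hx⟩
      | algebraMap r => exact ⟨r, 0, by simp⟩
      | add x y _ _ hx hy =>
        obtain ⟨α, β, rfl⟩ := hx
        obtain ⟨α', β', rfl⟩ := hy
        exact ⟨α + α', β + β', by simp only [map_add]; ring⟩
      | mul x y _ _ hx hy =>
        obtain ⟨α, β, rfl⟩ := hx
        obtain ⟨α', β', rfl⟩ := hy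
        refine ⟨α * α' - β * β' * w.out.1, α * β' + α' * β + β * β', ?_⟩
        simp only [map_add, map_sub, map_mul]
        linear_combination algebraMap K _ β * algebraMap K _ β' * h2 w.out.1
    obtain ⟨α, β, e'⟩ := h7 _ h6
    have hβ : β ≠ 0 := fun h0 => h5 w' hw' α (by simpa [h0] using e'.symm)
    have h8 : algebraMap K _ (β * (2 * α + β - 1)) * ρ w.out.1 +
        algebraMap K _ (α ^ 2 - α + w'.out.1 - β ^ 2 * w.out.1) = 0 := by
      have := h2 w'.out.1
      rw [e'] at this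
      simp only [map_add, map_sub, map_mul, map_pow, map_one, map_ofNat]
      linear_combination this - algebraMap K _ β ^ 2 * h2 w.out.1
    have h9 : β * (2 * α + β - 1) = 0 := by
      by_contra h0
      refine h5 w hw (-(α ^ 2 - α + w'.out.1 - β ^ 2 * w.out.1) / (β * (2 * α + β - 1))) ?_
      rw [map_div₀, div_eq_iff ((_root_.map_ne_zero _).2 h0), map_neg]
      linear_combination -h8
    rw [h9, map_zero, zero_mul, zero_add, _root_.map_eq_zero] at h8
    obtain rfl : β = 1 - 2 * α := by linear_combination (mul_eq_zero.1 h9).resolve_left hβ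
    rw [← w.out_eq, ← w'.out_eq]
    exact mk_eq (z := α + (1 - 2 * α) * (1 - 2 * w.out.1))
      (by linear_combination (1 - 4 * w.out.1) * h8)

end Fld

section Core

variable {R : Type*} [CommRing R]

/-- prime avoidance in a coset -/
theorem avoid_coset (d c : R) (T : Finset (Ideal R)) (hT : ∀ p ∈ T, p.IsPrime ∧ d ∉ p) :
    ∃ s, ∀ p ∈ T, c + s * d ∉ p := by
  classical
  induction T using Finset.strongInductionOn with
  | _ T ih =>
    rcases T.eq_empty_or_nonempty with rfl | hne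
    · exact ⟨0, by simp⟩
    obtain ⟨p, hp⟩ := T.exists_minimal hne
    obtain ⟨s, hs⟩ := ih _ (Finset.erase_ssubset hp.1) fun q hq => hT q (Finset.mem_of_mem_erase hq)
    by_cases h : c + s * d ∈ p
    swap
    · refine ⟨s, fun q hq => ?_⟩
      by_cases e : q = p
      · exact e ▸ h
      · exact hs q (Finset.mem_erase.2 ⟨e, hq⟩)
    have h1 : ¬(T.erase p).inf id ≤ p := fun h1 => by
      obtain ⟨q, hq, h2⟩ := (hT p hp.1).1.inf_le'.1 h1
      exact (Finset.mem_erase.1 hq).1 (le_antisymm h2 (hp.2 (Finset.mem_of_mem_erase hq) h2))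
    obtain ⟨y, hy, hy'⟩ := SetLike.not_le_iff_exists.1 h1
    refine ⟨s + y, fun q hq h2 => ?_⟩
    rw [add_mul, ← add_assoc] at h2
    by_cases e : q = p
    · exact (((hT p hp.1).1.mem_or_mem ((p.add_mem_iff_right h).1 (e ▸ h2))).resolve_left hy'
        |> (hT p hp.1).2)
    · have h3 := Finset.mem_erase.2 ⟨e, hq⟩
      exact hs q h3 ((q.add_mem_iff_left (q.mul_mem_right d (Finset.inf_le (f := id) h3 hy))).1 h2)

theorem core {W : Type*} [CommGroup W] [Finite W] {d : R} (hu : ∀ k, IsUnit (1 + d * k))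
    (cl : R → W) (h0 : cl 0 = 1) (hm : ∀ t t', cl (t + t' - 4 * d * t * t') = cl t * cl t')
    (hn : ∀ t, cl (d * t ^ 2 * (3 + 4 * d * t)) = cl t) (c : R) :
    ∃ s, ∀ t₀, ∃ t, cl (t₀ - t * (c + s * d)) = 1 := by
  classical
  let H : R → Subgroup W := fun x =>
    { carrier := {w | ∃ t, cl (t * x) = w}
      mul_mem' := by
        rintro _ _ ⟨t, rfl⟩ ⟨t', rfl⟩
        exact ⟨t + t' - 4 * d * t * t' * x, by rw [← hm]; congr 1; ring⟩
      one_mem' := ⟨0, by rw [zero_mul, h0]⟩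
      inv_mem' := by
        rintro _ ⟨t, rfl⟩
        obtain ⟨u, e⟩ := (hu (-4 * t * x)).exists_right_inv
        refine ⟨-t * u, eq_inv_of_mul_eq_one_left ?_⟩
        rw [← hm, ← h0]
        congr 1
        linear_combination (-t * x) * e }
  let I : Subgroup W → Ideal R := fun L =>
    { carrier := {x | ∀ t, cl (t * x) ∈ L}
      add_mem' := fun {x y} hx hy t => by
        obtain ⟨u, e⟩ := (hu (-4 * t * x)).exists_right_inv
        have h1 : t * (x + y) = t * x + t * u * y - 4 * d * (t * x) * (t * u * y) := by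
          linear_combination (-t * y) * e
        rw [h1, hm]
        exact mul_mem (hx _) (hy _)
      zero_mem' := fun t => by
        rw [mul_zero, h0]
        exact one_mem _
      smul_mem' := fun a x hx t => by
        rw [smul_eq_mul, ← mul_assoc]
        exact hx _ }
  have h1 : ∀ n t, ∃ t', cl t = cl (t' * d ^ n) := fun n t => by
    induction n with
    | zero => exact ⟨t, by rw [pow_zero, mul_one]⟩
    | succ n ih =>
      obtain ⟨t', e⟩ := ih
      exact ⟨t' ^ 2 * d ^ n * (3 + 4 * d * (t' * d ^ n)), by rw [e, ← hn]; congr 1; ring⟩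
  have h2 : ∀ L : {L : Subgroup W // ¬∀ t, cl t ∈ L},
      ∃ p : Ideal R, p.IsPrime ∧ I L ≤ p ∧ d ∉ p := fun L => by
    obtain ⟨p, hp, h3, h4⟩ := (I L).exists_le_prime_disjoint (Submonoid.powers d)
      (Set.disjoint_right.2 (by
        rintro _ ⟨n, rfl⟩ h
        refine L.2 fun t => ?_
        obtain ⟨t', e⟩ := h1 n t
        exact e ▸ h t'))
    exact ⟨p, hp, h3, Set.disjoint_right.1 h4 (Submonoid.mem_powers d)⟩
  choose p hp using h2
  obtain ⟨s, hs⟩ := avoid_coset d c (Set.finite_range p).toFinset fun q hq => by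
    obtain ⟨L, rfl⟩ := (Set.Finite.mem_toFinset _).1 hq
    exact ⟨(hp L).1, (hp L).2.2⟩
  refine ⟨s, fun t₀ => ?_⟩
  have h3 : ∀ t, cl t ∈ H (c + s * d) := by
    by_contra h
    exact hs _ ((Set.Finite.mem_toFinset _).2 ⟨⟨_, h⟩, rfl⟩) ((hp ⟨_, h⟩).2.1 fun t => ⟨t, rfl⟩)
  obtain ⟨t, ht⟩ := inv_mem (h3 t₀)
  refine ⟨-t * (1 - 4 * d * t₀), ?_⟩
  rw [← mul_inv_cancel (cl t₀), ← ht, ← hm]
  congr 1
  ring

theorem shift_fin {K : Type*} [Field K] [Finite (Gr K ⧸ Spl K)] (f : R →+* K) {d : R}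
    (hu : ∀ k, IsUnit (1 + d * k)) (b c δ : R) :
    ∃ s t : R, ∃ z : K, z ^ 2 - z + f (d * (δ - b * s - t * (c + s * d))) = 0 := by
  have h1 : ∀ t : R, 1 - 4 * f (d * t) ≠ 0 := fun t h1 =>
    ((hu (-4 * t)).map f).ne_zero (by
      simp only [map_add, map_mul, map_one, map_neg, map_ofNat] at h1 ⊢
      linear_combination h1)
  obtain ⟨s, hs⟩ := core hu (fun t => (QuotientGroup.mk (α := Gr K) ⟨_, h1 t⟩ : Gr K ⧸ Spl K))
    ((QuotientGroup.eq_one_iff _).2 ⟨0, by simp⟩)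
    (fun t t' => by
      refine Eq.trans (congrArg _ (Subtype.ext ?_)) (QuotientGroup.mk_mul _ _ _)
      change _ = f (d * t) + f (d * t') - 4 * f (d * t) * f (d * t')
      simp only [map_add, map_sub, map_mul, map_ofNat]
      ring)
    (fun t => mk_eq (z := 1 - f (d * t) - 4 * f (d * t) ^ 2) (by
      simp only [map_add, map_mul, map_pow, map_ofNat]
      ring)) c
  obtain ⟨t, ht⟩ := hs (δ - b * s)
  exact ⟨s, t, (QuotientGroup.eq_one_iff _).1 ht⟩

theorem shift_val {K : Type*} [Field K] (O : ValuationSubring K)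
    (hO : ∀ η : O, η ∈ IsLocalRing.maximalIdeal O → ∃ z : K, z ^ 2 - z + η = 0)
    [Finite (Gr (IsLocalRing.ResidueField O) ⧸ Spl (IsLocalRing.ResidueField O))] (f : R →+* K)
    {d : R} (hu : ∀ k, IsUnit (1 + d * k)) (b c δ : R) :
    ∃ s t : R, ∃ z : K, z ^ 2 - z + f (d * (δ - b * s - t * (c + s * d))) = 0 := by
  by_cases h : ∀ x, f x ∈ O
  · let g : R →+* O := f.codRestrict O h
    obtain ⟨s, t, z, hz⟩ := shift_fin ((IsLocalRing.residue O).comp g) hu b c δ
    refine ⟨s, t, ?_⟩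
    obtain ⟨z, rfl⟩ := IsLocalRing.residue_surjective z
    generalize δ - b * s - t * (c + s * d) = r at hz ⊢
    have h1 : z ^ 2 - z + g (d * r) ∈ IsLocalRing.maximalIdeal O :=
      (IsLocalRing.residue_eq_zero_iff _).1 (by simpa using hz)
    have h2 : IsUnit ((1 - 2 * z) ^ 2) := by
      by_contra h2
      refine (IsLocalRing.mem_maximalIdeal _).1 (sub_mem ((IsLocalRing.mem_maximalIdeal _).2 h2)
        (Ideal.mul_mem_left _ 4 h1)) (Eq.subst ?_ ((hu (-4 * r)).map g))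
      simp only [map_add, map_mul, map_one, map_neg, map_ofNat]
      ring
    obtain ⟨u, e⟩ := h2.exists_right_inv
    obtain ⟨w, hw⟩ := hO _ (Ideal.mul_mem_left _ u h1)
    have e' := congrArg (algebraMap O K) e
    change w ^ 2 - w + algebraMap O K (u * (z ^ 2 - z + g (d * r))) = 0 at hw
    change ∃ y, y ^ 2 - y + algebraMap O K (g (d * r)) = 0
    generalize g (d * r) = η at hw ⊢
    simp only [map_add, map_sub, map_mul, map_pow, map_one, map_ofNat] at hw e'
    exact ⟨algebraMap O K z * w + (1 - algebraMap O K z) * (1 - w), by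
      linear_combination (1 - 2 * algebraMap O K z) ^ 2 * hw -
        (algebraMap O K z ^ 2 - algebraMap O K z + algebraMap O K η) * e'⟩
  let v := O.valuation.comap f
  have hv : ∀ x, v x < 1 → ∃ z : K, z ^ 2 - z + f x = 0 := fun x hx =>
    hO ⟨f x, O.mem_of_valuation_le_one _ hx.le⟩ ((O.valuation_lt_one_iff _).2 hx)
  obtain ⟨y, hy⟩ := not_forall.1 h
  have hy' : 1 < v y := not_le.1 fun h => hy (O.mem_of_valuation_le_one _ h)
  by_cases h1 : ∀ t, v (d * t) < 1
  · exact ⟨0, 0, hv _ (h1 _)⟩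
  obtain ⟨t, ht⟩ := not_forall.1 h1
  obtain ⟨s, hs⟩ : ∃ s, 1 ≤ v ((c + s * d) * t) := by
    by_contra h2
    push Not at h2
    exact ht (lt_of_eq_of_lt (by congr 1; ring) (v.map_sub_lt (h2 1) (h2 0)))
  obtain ⟨y', h2, h3⟩ : ∃ y', 1 ≤ v y' ∧ v (d * (δ - b * s)) ≤ v y' := by
    rcases le_total 1 (v (d * (δ - b * s))) with h | h
    · exact ⟨_, h, le_rfl⟩
    · exact ⟨1, v.map_one.ge, h.trans v.map_one.ge⟩
  obtain ⟨u, e⟩ := (hu (t * ((c + s * d) * t) * (y * y'))).exists_right_inv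
  have h4 : v y' < v (d * (t * ((c + s * d) * t) * (y * y'))) := by
    rw [← mul_assoc d, ← mul_assoc d, map_mul, map_mul, map_mul v y]
    exact (lt_mul_of_one_lt_left (zero_lt_one.trans_le h2) hy').trans_le
      (le_mul_of_one_le_left' (one_le_mul (not_lt.1 ht) hs))
  refine ⟨s, (δ - b * s) * d * t * t * y * y' * u, hv _ ?_⟩
  have h5 : d * (δ - b * s - (δ - b * s) * d * t * t * y * y' * u * (c + s * d)) =
      d * (δ - b * s) * u := by linear_combination -(d * (δ - b * s)) * e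
  have h6 := congrArg v e
  rw [map_mul, v.map_add_eq_of_lt_right (v.map_one.trans_lt (h2.trans_lt h4)), map_one] at h6
  rw [h5, map_mul, ← h6]
  exact mul_lt_mul_of_pos_right (h3.trans_lt h4)
    (zero_lt_iff.2 (right_ne_zero_of_mul_eq_one h6))

end Core

section Dom

variable {A : Type*} [CommRing A] [IsDomain A] [IsBezout A]

theorem exists_shift {K : Type*} [Field K] [Algebra A K] [IsFractionRing A K]
    (O : ValuationSubring K)
    (hO : ∀ η : O, η ∈ IsLocalRing.maximalIdeal O → ∃ z : K, z ^ 2 - z + η = 0)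
    [Finite (Gr (IsLocalRing.ResidueField O) ⧸ Spl (IsLocalRing.ResidueField O))]
    {d : A} (hu : ∀ k, IsUnit (1 + d * k)) {a b c δ : A} (h : a * (1 - a) - b * c = d * δ) :
    ∃ s t z : A, z ^ 2 - z + (a * (1 - a) - (b + t * d) * (c + s * d)) = 0 := by
  obtain ⟨s, t, z, hz⟩ := shift_val O hO (algebraMap A K) hu b c δ
  refine ⟨s, t, ?_⟩
  rw [show a * (1 - a) - (b + t * d) * (c + s * d) = d * (δ - b * s - t * (c + s * d)) by
    linear_combination h]
  generalize d * (δ - b * s - t * (c + s * d)) = c at hz ⊢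
  obtain ⟨y, rfl⟩ := IsIntegrallyClosed.isIntegral_iff.1 (show IsIntegral A z from
    ⟨X ^ 2 - X + C c, by monicity!, by simpa using hz⟩)
  exact ⟨y, IsFractionRing.injective A K (by simpa using hz)⟩

theorem split_pair (x y : A) : ∃ g x' y' p q, x = g * x' ∧ y = g * y' ∧ p * x' + q * y' = 1 := by
  obtain ⟨p, q, e⟩ := IsBezout.gcd_eq_sum x y
  obtain ⟨x', hx⟩ := IsBezout.gcd_dvd_left x y
  obtain ⟨y', hy⟩ := IsBezout.gcd_dvd_right x y
  generalize IsBezout.gcd x y = g at e hx hy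
  by_cases hg : g = 0
  · exact ⟨0, 1, 0, 1, 0, by rw [hx, hg]; ring, by rw [hy, hg]; ring, by ring⟩
  · exact ⟨g, x', y', p, q, hx, hy,
      mul_left_cancel₀ hg (by linear_combination e - p * hx - q * hy)⟩

/-- a matrix of trace one with an eigenvalue represents one -/
theorem rep_one {a b c z : A} (h : z ^ 2 - z + (a * (1 - a) - b * c) = 0) :
    ∃ x₁ x₂ y₁ y₂ : A, x₁ * (a * y₁ + b * y₂) + x₂ * (c * y₁ + (1 - a) * y₂) = 1 := by
  obtain ⟨g, b', l, p, q, hb, hl, e3⟩ := split_pair b (z - a)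
  by_cases hg : g = 0
  · rw [hg, zero_mul] at hb
    exact ⟨1 - c, 1, 1, 1 - c, by rw [hb]; ring⟩
  have e1 : a * b' + b * l = z * b' := by linear_combination l * hb - b' * hl
  have e2 : c * b' + (1 - a) * l = z * l := mul_left_cancel₀ hg (by
    linear_combination -c * hb + (z + a - 1) * hl - h)
  obtain ⟨β, hβ⟩ : ∃ β, β = p * (a * -q + b * p) + q * (c * -q + (1 - a) * p) := ⟨_, rfl⟩
  refine ⟨p - (1 - β) * l, q + (1 - β) * b', (1 - β) * b' - q, (1 - β) * l + p, ?_⟩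
  linear_combination (1 - β) * e3 + (1 - β) ^ 2 * (b' * e2 - l * e1) - hβ

theorem isBezout_loc (S : Submonoid A) (R : Type*) [CommRing R] [Algebra A R]
    [IsLocalization S R] : IsBezout R := by
  refine IsBezout.iff_span_pair_isPrincipal.2 fun x y => ?_
  obtain ⟨⟨x₀, s⟩, e⟩ := IsLocalization.surj S x
  obtain ⟨⟨y₀, t⟩, e'⟩ := IsLocalization.surj S y
  obtain ⟨s', hs⟩ := (IsLocalization.map_units R s).exists_right_inv
  obtain ⟨t', ht⟩ := (IsLocalization.map_units R t).exists_right_inv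
  obtain ⟨g, x', y', p, q, rfl, rfl, h⟩ := split_pair x₀ y₀
  have h' := congrArg (algebraMap A R) h
  simp only [map_add, map_mul, map_one] at h' e e'
  refine ⟨algebraMap A R g, le_antisymm (Ideal.span_le.2 ?_) ?_⟩
  · rintro F (rfl | rfl)
    · exact Ideal.mem_span_singleton'.2 ⟨algebraMap A R x' * s', by
        linear_combination F * hs - s' * e⟩
    · exact Ideal.mem_span_singleton'.2 ⟨algebraMap A R y' * t', by
        linear_combination F * ht - t' * e'⟩
  · rw [Submodule.span_singleton_le_iff_mem]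
    exact Ideal.mem_span_pair.2 ⟨algebraMap A R p * algebraMap A R s,
      algebraMap A R q * algebraMap A R t, by
        linear_combination algebraMap A R p * e + algebraMap A R q * e' + algebraMap A R g * h'⟩

/-- a unimodular matrix represents one modulo its determinant -/
theorem rep_mod {K : Type*} [Field K] [Algebra A K] [IsFractionRing A K] (O : ValuationSubring K)
    (hO : ∀ η : O, η ∈ IsLocalRing.maximalIdeal O → ∃ z : K, z ^ 2 - z + η = 0)
    [Finite (Gr (IsLocalRing.ResidueField O) ⧸ Spl (IsLocalRing.ResidueField O))]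
    {e₁ e₂ e₃ e₄ n₁ n₂ n₃ n₄ : A} (h : n₁ * e₁ + n₂ * e₂ + (n₃ * e₃ + n₄ * e₄) = 1) :
    ∃ x₁ x₂ w₁ w₂ k : A,
      x₁ * (e₁ * w₁ + e₂ * w₂) + x₂ * (e₃ * w₁ + e₄ * w₂) = 1 + (e₁ * e₄ - e₂ * e₃) * k := by
  obtain ⟨d, hd⟩ : ∃ d, d = e₁ * e₄ - e₂ * e₃ := ⟨_, rfl⟩
  rw [← hd]
  by_cases h0 : ∃ k, 1 + d * k = 0
  · obtain ⟨k, hk⟩ := h0
    exact ⟨0, 0, 0, 0, k, by linear_combination -hk⟩
  let S : Submonoid A :=
    { carrier := {x | ∃ k, x = 1 + d * k}
      mul_mem' := by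
        rintro _ _ ⟨k, rfl⟩ ⟨k', rfl⟩
        exact ⟨k + k' + d * k * k', by ring⟩
      one_mem' := ⟨0, by ring⟩ }
  have hS : S ≤ nonZeroDivisors A := fun x ⟨k, hk⟩ =>
    mem_nonZeroDivisors_of_ne_zero fun h => h0 ⟨k, hk ▸ h⟩
  let R := Localization.subalgebra.ofField K S hS
  have := isBezout_loc S R
  let ι := algebraMap A R
  have hu : ∀ k : R, IsUnit (1 + ι d * k) := fun k => by
    obtain ⟨⟨k₀, _, k', rfl⟩, e⟩ := IsLocalization.surj S k
    have h1 := IsLocalization.map_units R (⟨_, k' + k₀, rfl⟩ : S)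
    refine isUnit_of_mul_isUnit_left (y := ι (1 + d * k')) (Eq.subst ?_ h1)
    simp only [map_add, map_mul, map_one] at e ⊢
    linear_combination -ι d * e
  have h' := congrArg ι h
  have hd' := congrArg ι hd
  simp only [map_add, map_sub, map_mul, map_one] at h' hd'
  obtain ⟨s, t, z, hz⟩ := exists_shift O hO hu (a := ι e₁ * ι n₁ + ι e₂ * ι n₂)
    (b := ι e₁ * ι n₃ + ι e₂ * ι n₄) (c := ι e₃ * ι n₁ + ι e₄ * ι n₂)
    (δ := ι n₁ * ι n₄ - ι n₃ * ι n₂)
    (by rw [hd']; linear_combination -(ι e₁ * ι n₁ + ι e₂ * ι n₂) * h')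
  obtain ⟨x₁, x₂, y₁, y₂, h1⟩ := rep_one hz
  obtain ⟨⟨a₁, s₁⟩, f₁⟩ := IsLocalization.surj S x₁
  obtain ⟨⟨a₂, s₂⟩, f₂⟩ := IsLocalization.surj S x₂
  obtain ⟨⟨b₁, t₁⟩, g₁⟩ := IsLocalization.surj S
    ((ι n₁ - ι e₂ * s) * y₁ + (ι n₃ + ι e₄ * t) * y₂)
  obtain ⟨⟨b₂, t₂⟩, g₂⟩ := IsLocalization.surj S
    ((ι n₂ + ι e₁ * s) * y₁ + (ι n₄ - ι e₃ * t) * y₂)
  obtain ⟨k, hk⟩ := (s₁ * s₂ * (t₁ * t₂)).2
  refine ⟨a₁ * s₂, a₂ * s₁, b₁ * t₂, b₂ * t₁, k, hk ▸ IsLocalization.injective R hS ?_⟩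
  simp only [Submonoid.coe_mul, map_add, map_mul, ← f₁, ← f₂, ← g₁, ← g₂]
  rw [hd'] at h1
  linear_combination (ι s₁ * ι s₂ * (ι t₁ * ι t₂)) * (h1 + x₂ * y₂ * h')

theorem main_quad {K : Type*} [Field K] [Algebra A K] [IsFractionRing A K] (O : ValuationSubring K)
    (hO : ∀ η : O, η ∈ IsLocalRing.maximalIdeal O → ∃ z : K, z ^ 2 - z + η = 0)
    (hK : {L : IntermediateField (IsLocalRing.ResidueField O)
        (AlgebraicClosure (IsLocalRing.ResidueField O)) |
      Module.finrank (IsLocalRing.ResidueField O) L = 2 ∧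
        Algebra.IsSeparable (IsLocalRing.ResidueField O) L}.Finite)
    (M : Matrix (Fin 2) (Fin 2) A) :
    ∃ C D : Matrix (Fin 2) (Fin 2) A, IsUnit C ∧ IsUnit D ∧ (C * M * D).IsDiag := by
  have := finite_quot hK
  obtain ⟨g, hg⟩ := IsBezout.isPrincipal_of_FG
    (Ideal.span (Set.range fun q : Fin 2 × Fin 2 => M q.1 q.2))
    (Submodule.fg_span (Set.finite_range _))
  have h1 : ∀ i j, ∃ x, x * g = M i j := fun i j => Ideal.mem_span_singleton'.1
    (hg.le (Ideal.subset_span ⟨(i, j), rfl⟩))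
  choose e he using h1
  obtain ⟨n, hn⟩ := Ideal.mem_span_range_iff_exists_fun.1
    (hg.ge (Submodule.mem_span_singleton_self g))
  by_cases h0 : g = 0
  · refine ⟨1, 1, isUnit_one, isUnit_one, fun i j _ => ?_⟩
    rw [Matrix.one_mul, Matrix.mul_one]
    exact (he i j).symm.trans (by rw [h0, mul_zero])
  simp only [Fintype.sum_prod_type, Fin.sum_univ_two, ← he] at hn
  have h2 : n (0, 0) * e 0 0 + n (0, 1) * e 0 1 + (n (1, 0) * e 1 0 + n (1, 1) * e 1 1) = 1 :=
    mul_right_cancel₀ h0 (by linear_combination hn)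
  obtain ⟨u₁, u₂, v₁, v₂, k, h⟩ := rep_mod O hO h2
  obtain ⟨γ, x₁, x₂, p, q, rfl, rfl, h4⟩ := split_pair u₁ u₂
  obtain ⟨w₁, h₁⟩ : ∃ w, w = γ * v₁ - k * (e 1 1 * p - e 0 1 * q) := ⟨_, rfl⟩
  obtain ⟨w₂, h₂⟩ : ∃ w, w = γ * v₂ - k * (e 0 0 * q - e 1 0 * p) := ⟨_, rfl⟩
  have h3 : x₁ * (e 0 0 * w₁ + e 0 1 * w₂) + x₂ * (e 1 0 * w₁ + e 1 1 * w₂) = 1 := by
    rw [h₁, h₂]
    linear_combination h - (e 0 0 * e 1 1 - e 0 1 * e 1 0) * k * h4
  refine ⟨!![x₁, x₂; -(e 1 0 * w₁ + e 1 1 * w₂), e 0 0 * w₁ + e 0 1 * w₂],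
    !![w₁, -(x₁ * e 0 1 + x₂ * e 1 1); w₂, x₁ * e 0 0 + x₂ * e 1 0], ?_, ?_, fun i j hij => ?_⟩
  · rw [isUnit_iff_isUnit_det, det_fin_two_of]
    exact IsUnit.of_mul_eq_one 1 (by linear_combination h3)
  · rw [isUnit_iff_isUnit_det, det_fin_two_of]
    exact IsUnit.of_mul_eq_one 1 (by linear_combination h3)
  · fin_cases i <;> fin_cases j
    · exact absurd rfl hij
    · simp [mul_apply, vecMul, dotProduct, Fin.sum_univ_two, ← he]
      ring
    · simp [mul_apply, vecMul, dotProduct, Fin.sum_univ_two, ← he]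
      ring
    · exact absurd rfl hij

end Dom

end Pool.Agent.MP_2023ef_al.H81
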