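import Mathlib

/-!
Common zeros of coprime complex polynomials have real codimension four, in a form that is stable
under products with vector spaces.
-/

set_option autoImplicit false

open Set Module Polynomial Filter Topology

namespace Pool.Agent.MP_2023ef_al.H81

section Thin

variable {E : Type} [NormedAddCommGroup E] [NormedSpace ℝ E]

/-- `V` has real codimension at least `c`, stably -/
def Thin (c : ℕ) (V : Set E) : Prop :=
  ∀ (F : Type) [NormedAddCommGroup F] [NormedSpace ℝ F] [FiniteDimensional ℝ F],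
    4 ≤ finrank ℝ F → dimH (V ×ˢ (univ : Set F)) ≤ ((finrank ℝ E + finrank ℝ F - c : ℕ) : ENNReal)

theorem Thin.mono {c : ℕ} {V W : Set E} (h : Thin c W) (hV : V ⊆ W) : Thin c V :=
  fun F _ _ _ hF => (dimH_mono (prod_mono hV Subset.rfl)).trans (h F hF)

theorem Thin.empty (c : ℕ) : Thin c (∅ : Set E) := fun F _ _ _ _ => by simp

theorem Thin.univ [FiniteDimensional ℝ E] : Thin 0 (univ : Set E) := fun F _ _ _ _ => by
  rw [univ_prod_univ, Real.dimH_univ_eq_finrank, finrank_prod, Nat.sub_zero]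

theorem Thin.iUnion {c : ℕ} {ι : Type} [Countable ι] {V : ι → Set E} (h : ∀ i, Thin c (V i)) :
    Thin c (⋃ i, V i) := fun F _ _ _ hF => by
  rw [iUnion_prod_const, dimH_iUnion]
  exact iSup_le fun i => h i F hF

theorem Thin.union {c : ℕ} {V W : Set E} (h : Thin c V) (h' : Thin c W) : Thin c (V ∪ W) :=
  fun F _ _ _ hF => by
  rw [union_prod, dimH_union]
  exact max_le (h F hF) (h' F hF)

theorem Thin.equiv {E' : Type} [NormedAddCommGroup E'] [NormedSpace ℝ E'] (L : E' ≃L[ℝ] E)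
    {c : ℕ} {V : Set E} (h : Thin c V) : Thin c (L ⁻¹' V) := fun F _ _ _ hF => by
  rw [L.toLinearEquiv.finrank_eq]
  refine le_trans ?_ (h F hF)
  exact (L.prodCongr (ContinuousLinearEquiv.refl ℝ F)).antilipschitz.dimH_preimage_le
    (V ×ˢ (Set.univ : Set F)) |>.trans' (dimH_mono fun x hx => ⟨hx.1, trivial⟩)

variable [FiniteDimensional ℝ E]

theorem Thin.cyl {c : ℕ} {V : Set E} (h : Thin c V) : Thin c {x : E × ℂ | x.1 ∈ V} :=
  fun F _ _ _ hF => by
  have h1 := h (ℂ × F) (by rw [finrank_prod]; omega)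
  rw [finrank_prod, ← add_assoc, ← finrank_prod] at h1
  refine le_trans ?_ h1
  exact (ContinuousLinearEquiv.prodAssoc ℝ E ℂ F).antilipschitz.dimH_preimage_le
    (V ×ˢ (Set.univ : Set (ℂ × F))) |>.trans' (dimH_mono fun x hx => ⟨hx.1, trivial⟩)

/-- a set that is locally a Lipschitz graph over a thin set -/
theorem Thin.graph {c : ℕ} {W : Set E} (h : Thin c W) {Z : Set (E × ℂ)}
    (hW : ∀ x ∈ Z, x.1 ∈ W)
    (hZ : ∀ x ∈ Z, ∃ U ∈ 𝓝 x, ∃ K : NNReal, ∀ a ∈ Z ∩ U, ∀ b ∈ Z ∩ U,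
      ‖a.2 - b.2‖ ≤ K * ‖a.1 - b.1‖) : Thin (c + 2) Z := fun F _ _ _ hF => by
  have e : finrank ℝ (E × ℂ) + finrank ℝ F - (c + 2) = finrank ℝ E + finrank ℝ F - c := by
    rw [finrank_prod, Complex.finrank_real_complex]
    omega
  rw [e]
  by_contra hlt
  obtain ⟨x, hx, hloc⟩ := exists_mem_nhdsWithin_lt_dimH_of_lt_dimH (not_le.1 hlt)
  obtain ⟨U, hU, K, hK⟩ := hZ x.1 hx.1
  refine absurd (hloc ((Z ∩ U) ×ˢ Set.univ) ?_) (not_lt.2 ?_)
  · refine mem_of_superset (inter_mem_nhdsWithin _ (prod_mem_nhds hU univ_mem)) ?_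
    exact fun y hy => ⟨⟨hy.1.1, hy.2.1⟩, trivial⟩
  · let S : Set ((E × ℂ) × F) := (Z ∩ U) ×ˢ Set.univ
    let f : S → E × F := fun y => (y.1.1.1, y.1.2)
    have hf : AntilipschitzWith (K + 1) f := by
      refine AntilipschitzWith.of_le_mul_dist fun a b => ?_
      have h1 := hK _ a.2.1 _ b.2.1
      have h2 : ‖a.1.1.1 - b.1.1.1‖ ≤ dist (f a) (f b) := by
        rw [← dist_eq_norm, Prod.dist_eq]
        exact le_max_left _ _
      have h3 : dist a.1.2 b.1.2 ≤ dist (f a) (f b) := by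
        rw [Prod.dist_eq]
        exact le_max_right _ _
      have h4 : (0 : ℝ) ≤ K * dist (f a) (f b) := by positivity
      have h5 := mul_le_mul_of_nonneg_left h2 K.coe_nonneg
      rw [Subtype.dist_eq, Prod.dist_eq, Prod.dist_eq, dist_eq_norm, dist_eq_norm]
      push_cast
      refine max_le (max_le ?_ ?_) ?_ <;> nlinarith [dist_nonneg (x := f a) (y := f b)]
    have e1 : dimH S = dimH (Set.univ : Set S) := by
      rw [← (isometry_subtype_coe (s := S)).dimH_image Set.univ, image_univ, Subtype.range_coe]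
    refine e1.le.trans ((hf.le_dimH_image _).trans (le_trans (dimH_mono ?_) (h F hF)))
    rintro _ ⟨y, -, rfl⟩
    exact ⟨hW _ y.2.1.1, trivial⟩

omit [FiniteDimensional ℝ E] in
/-- simple zeros in the last variable form local Lipschitz graphs -/
theorem local_graph {Φ : E × ℂ → ℂ} (hΦ : ContDiff ℝ 1 Φ) {x : E × ℂ} {κ : ℂ} (hκ : κ ≠ 0)
    (hd : HasDerivAt (fun t => Φ (x.1, t)) κ x.2) :
    ∃ U ∈ 𝓝 x, ∃ K : NNReal, ∀ a ∈ U, ∀ b ∈ U, Φ a = 0 → Φ b = 0 →
      ‖a.2 - b.2‖ ≤ K * ‖a.1 - b.1‖ := by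
  have hs : HasStrictFDerivAt Φ (fderiv ℝ Φ x) x :=
    hΦ.contDiffAt.hasStrictFDerivAt one_ne_zero
  set A := fderiv ℝ Φ x
  have e : ∀ τ : ℂ, A (0, τ) = τ * κ := fun τ => by
    have h1 : HasFDerivAt (fun t => Φ (x.1, t)) (A.comp (ContinuousLinearMap.inr ℝ E ℂ)) x.2 :=
      hs.hasFDerivAt.comp x.2 (hasFDerivAt_prodMk_right x.1 x.2)
    have h2 := h1.unique (hd.hasFDerivAt.restrictScalars ℝ)
    simpa using congrArg (fun L : ℂ →L[ℝ] ℂ => L τ) h2
  have hk : 0 < ‖κ‖ := norm_pos_iff.2 hκ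
  have h3 := hs.isLittleO.bound (half_pos hk)
  rw [nhds_prod_eq] at h3
  obtain ⟨U, hU, hUU⟩ := mem_prod_self_iff.1 h3
  refine ⟨U, hU, ⟨2 * ‖A‖ / ‖κ‖ + 1, by positivity⟩, fun a ha b hb h0 h0' => ?_⟩
  have h4 : ‖Φ a - Φ b - A (a - b)‖ ≤ ‖κ‖ / 2 * ‖a - b‖ := hUU (mk_mem_prod ha hb)
  have e2 : A (a - b) = A (a.1 - b.1, 0) + (a.2 - b.2) * κ := by
    rw [← e, ← map_add]
    congr 1
    ext <;> simp
  have h5 : ‖A (a.1 - b.1, 0)‖ ≤ ‖A‖ * ‖a.1 - b.1‖ := by
    simpa using A.le_opNorm (a.1 - b.1, 0)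
  rw [h0, h0', sub_self, zero_sub, norm_neg, e2] at h4
  have h6 : ‖a - b‖ ≤ ‖a.1 - b.1‖ + ‖a.2 - b.2‖ := by
    rw [Prod.norm_def]
    exact max_le (le_add_of_nonneg_right (norm_nonneg _)) (le_add_of_nonneg_left (norm_nonneg _))
  have h7 : ‖a.2 - b.2‖ * ‖κ‖ ≤ ‖A (a.1 - b.1, 0) + (a.2 - b.2) * κ‖ + ‖A (a.1 - b.1, 0)‖ := by
    rw [← norm_mul]
    simpa using norm_sub_le (A (a.1 - b.1, 0) + (a.2 - b.2) * κ) (A (a.1 - b.1, 0))
  have h8 := mul_le_mul_of_nonneg_left h6 (half_pos hk).le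
  change ‖a.2 - b.2‖ ≤ (2 * ‖A‖ / ‖κ‖ + 1) * ‖a.1 - b.1‖
  refine le_of_mul_le_mul_right ?_ hk
  have e3 : (2 * ‖A‖ / ‖κ‖ + 1) * ‖a.1 - b.1‖ * ‖κ‖ = (2 * ‖A‖ + ‖κ‖) * ‖a.1 - b.1‖ := by
    field_simp
  rw [e3]
  linarith

variable {R : Type} [CommRing R]

omit [FiniteDimensional ℝ E] in
theorem contDiff_eval₂ {ev : E → R →+* ℂ} (hev : ∀ r, ContDiff ℝ 1 fun x => ev x r) (P : R[X]) :
    ContDiff ℝ 1 fun x : E × ℂ => P.eval₂ (ev x.1) x.2 := by
  simp only [eval₂_eq_sum_range]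
  exact ContDiff.sum fun i _ => ((hev _).comp contDiff_fst).mul (contDiff_snd.pow i)

/-- roots of a polynomial family over a thin set -/
theorem Thin.roots {ev : E → R →+* ℂ} (hev : ∀ r, ContDiff ℝ 1 fun x => ev x r) {c : ℕ}
    {W : Set E} (h : Thin c W) (P : R[X]) :
    Thin (c + 2) {x : E × ℂ | x.1 ∈ W ∧ P.map (ev x.1) ≠ 0 ∧ P.eval₂ (ev x.1) x.2 = 0} := by
  classical
  have key : ∀ Q : R[X], Thin (c + 2) {x : E × ℂ | x.1 ∈ W ∧ Q.eval₂ (ev x.1) x.2 = 0 ∧
      (derivative Q).eval₂ (ev x.1) x.2 ≠ 0} := fun Q => by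
    refine h.graph (fun x hx => hx.1) fun x hx => ?_
    obtain ⟨U, hU, K, hK⟩ := local_graph (contDiff_eval₂ hev Q) hx.2.2 (x := x) (by
      simpa only [eval₂_eq_eval_map, derivative_map] using (Q.map (ev x.1)).hasDerivAt x.2)
    exact ⟨U, hU, K, fun a ha b hb => hK a ha.2 b hb.2 ha.1.2.1 hb.1.2.1⟩
  refine (Thin.iUnion fun m : ℕ => key (derivative^[m] P)).mono ?_
  rintro x ⟨hW, hP, h0⟩
  have hex : ∃ m, (derivative^[m] P).eval₂ (ev x.1) x.2 ≠ 0 := by
    by_contra hcon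
    push Not at hcon
    refine lt_irrefl _ ((lt_rootMultiplicity_iff_isRoot_iterate_derivative hP (t := x.2)
      (n := (P.map (ev x.1)).rootMultiplicity x.2)).2 fun m _ => ?_)
    rw [IsRoot, iterate_derivative_map, ← eval₂_eq_eval_map]
    exact hcon m
  obtain ⟨m, hm⟩ : ∃ m, Nat.find hex = m + 1 :=
    Nat.exists_eq_succ_of_ne_zero fun h1 => by
      have := Nat.find_spec hex
      rw [h1] at this
      exact this h0
  refine mem_iUnion.2 ⟨m, hW, not_not.1 (Nat.find_min hex (by omega)), ?_⟩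
  have := Nat.find_spec hex
  rwa [hm, Function.iterate_succ_apply'] at this

/-- the kernel of an evaluation that is injective on the coefficients is principal -/
theorem ker_principal [IsDomain R] [UniqueFactorizationMonoid R] {L : Type} [Field L]
    (e : R →+* L) (he : Function.Injective e) (t : L) :
    ∃ p : R[X], ∀ P : R[X], eval₂ e t P = 0 ↔ p ∣ P := by
  by_cases hbot : RingHom.ker (eval₂RingHom e t) = ⊥
  · refine ⟨0, fun P => ?_⟩
    rw [zero_dvd_iff, ← Ideal.mem_bot (x := P), ← hbot, RingHom.mem_ker]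
    rfl
  · obtain ⟨p, hp, hprime⟩ :=
      (RingHom.ker_isPrime (eval₂RingHom e t)).exists_mem_prime_of_ne_bot hbot
    have hp0 : eval₂ e t p = 0 := hp
    refine ⟨p, fun P => ⟨fun hP => ?_, ?_⟩⟩
    · have hdeg : p.natDegree ≠ 0 := by
        intro h
        rw [eq_C_of_natDegree_eq_zero h, eval₂_C] at hp0
        have h1 : p.coeff 0 = 0 := he (by simpa using hp0)
        apply hprime.ne_zero
        rw [eq_C_of_natDegree_eq_zero h, h1, C_0]
      have hprim : p.IsPrimitive := hprime.irreducible.isPrimitive hdeg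
      have hirr : Irreducible (p.map (algebraMap R (FractionRing R))) :=
        hprim.irreducible_iff_irreducible_map_fraction_map.1 hprime.irreducible
      let e' : FractionRing R →+* L := IsFractionRing.lift he
      have hcomp : e'.comp (algebraMap R (FractionRing R)) = e := by
        ext c
        simp [e']
      refine hprim.dvd_of_fraction_map_dvd_fraction_map (K := FractionRing R) ?_
      by_contra hnd
      obtain ⟨a, b, hab⟩ := (hirr.coprime_iff_not_dvd).2 hnd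
      have := congrArg (eval₂ e' t) hab
      rw [eval₂_add, eval₂_mul, eval₂_mul, eval₂_map, eval₂_map, hcomp, hp0, hP, eval₂_one] at this
      simp at this
    · rintro ⟨c, rfl⟩
      rw [eval₂_mul, hp0, zero_mul]

/-- elimination of the variable from a family without common factor -/
theorem exists_const [IsDomain R] [UniqueFactorizationMonoid R] {T : Set R[X]}
    (hT : ∀ d, (∀ P ∈ T, d ∣ P) → IsUnit d) : ∃ ρ : R, ρ ≠ 0 ∧ C ρ ∈ Ideal.span T := by
  by_contra hcon
  push Not at hcon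
  obtain ⟨p, hp, hle, hdis⟩ := (Ideal.span T).exists_le_prime_disjoint
    ((nonZeroDivisors R).map (C : R →+* R[X])) (by
      rw [Set.disjoint_left]
      rintro _ h ⟨ρ, hρ, rfl⟩
      exact hcon ρ (nonZeroDivisors.ne_zero hρ) h)
  let π : R[X] →+* FractionRing (R[X] ⧸ p) :=
    (algebraMap (R[X] ⧸ p) (FractionRing (R[X] ⧸ p))).comp (Ideal.Quotient.mk p)
  have hπ : ∀ P, π P = 0 ↔ P ∈ p := fun P => by
    rw [RingHom.comp_apply, map_eq_zero_iff _ (IsFractionRing.injective _ _),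
      Ideal.Quotient.eq_zero_iff_mem]
  obtain ⟨q, hq⟩ := ker_principal (π.comp C) (by
    rw [injective_iff_map_eq_zero]
    intro ρ h
    by_contra h0
    exact Set.disjoint_left.1 hdis ((hπ _).1 h) ⟨ρ, mem_nonZeroDivisors_of_ne_zero h0, rfl⟩) (π X)
  have e : ∀ P, eval₂ (π.comp C) (π X) P = π P := fun P => by
    rw [← hom_eval₂, eval₂_C_X]
  have hu := hT q fun P hP => (hq P).1 (by rw [e, hπ]; exact hle (Ideal.subset_span hP))
  have := (hq 1).2 hu.dvd
  rw [eval₂_one] at this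
  exact one_ne_zero this

/-- the functions `ev · r` have small zero sets -/
structure Gen (ev : E → R →+* ℂ) : Prop where
  sm : ∀ r, ContDiff ℝ 1 fun x => ev x r
  one : ∀ r, r ≠ 0 → Thin 2 {x | ev x r = 0}
  two : ∀ T : Set R, T.Countable → (∀ d, (∀ r ∈ T, d ∣ r) → IsUnit d) →
    Thin 4 {x | ∀ r ∈ T, ev x r = 0}

theorem Gen.step [IsDomain R] [UniqueFactorizationMonoid R] {ev : E → R →+* ℂ} (h : Gen ev) :
    Gen fun x : E × ℂ => eval₂RingHom (ev x.1) x.2 := by
  refine ⟨contDiff_eval₂ h.sm, fun P hP => ?_, fun T hT hc => ?_⟩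
  · refine ((h.one _ (leadingCoeff_ne_zero.2 hP)).cyl.union (Thin.univ.roots h.sm P)).mono ?_
    intro x hx
    by_cases h0 : P.map (ev x.1) = 0
    · exact Or.inl (by simpa using congrArg (coeff · P.natDegree) h0)
    · exact Or.inr ⟨trivial, h0, hx⟩
  · obtain ⟨ρ, hρ, hmem⟩ := exists_const hc
    have := hT.to_subtype
    have h1 := h.two (range fun q : T × ℕ => q.1.1.coeff q.2) (countable_range _) fun d hd =>
      isUnit_C.1 (hc _ fun P hP => (C_dvd_iff_dvd_coeff _ _).2 fun i => hd _ ⟨(⟨P, hP⟩, i), rfl⟩)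
    refine (h1.cyl.union (Thin.iUnion fun P : T => (h.one ρ hρ).roots h.sm P.1)).mono ?_
    intro x hx
    by_cases h0 : ∀ P : T, P.1.map (ev x.1) = 0
    · refine Or.inl ?_
      rintro _ ⟨q, rfl⟩
      simpa using congrArg (coeff · q.2) (h0 q.1)
    · push Not at h0
      obtain ⟨P, hP⟩ := h0
      refine Or.inr (mem_iUnion.2 ⟨P, ?_, hP, hx _ P.2⟩)
      have h2 : Ideal.span T ≤ RingHom.ker (eval₂RingHom (ev x.1) x.2) := Ideal.span_le.2 hx
      simpa using h2 hmem

omit [FiniteDimensional ℝ E] in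
theorem Gen.equiv {E' R' : Type} [NormedAddCommGroup E'] [NormedSpace ℝ E'] [CommRing R']
    {ev : E → R →+* ℂ} (h : Gen ev) (L : E' ≃L[ℝ] E) (σ : R' ≃+* R) {ev' : E' → R' →+* ℂ}
    (e : ∀ x r, ev' x r = ev (L x) (σ r)) : Gen ev' := by
  refine ⟨fun r => ?_, fun r hr => ?_, fun T hT hc => ?_⟩
  · simp only [e]
    exact (h.sm _).comp L.contDiff
  · exact ((h.one (σ r) (by simpa using hr)).equiv L).mono fun x hx => (e x r).symm.trans hx
  · refine ((h.two (σ '' T) (hT.image _) fun d hd => ?_).equiv L).mono ?_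
    · simpa using (hc (σ.symm d) fun r hr => by
        simpa using map_dvd σ.symm (hd _ ⟨r, hr, rfl⟩)).map σ
    · rintro x hx _ ⟨r, hr, rfl⟩
      exact (e x r).symm.trans (hx r hr)

end Thin

theorem gen_mv (k : ℕ) : Gen fun x : Fin k → ℂ => (MvPolynomial.eval x) := by
  induction k with
  | zero =>
    have hu : ∀ (r : MvPolynomial (Fin 0) ℂ) (x : Fin 0 → ℂ), MvPolynomial.eval x r = 0 → r = 0 :=
      fun r x h => by
        rw [r.eq_C_of_isEmpty, MvPolynomial.eval_C] at h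
        rw [r.eq_C_of_isEmpty, h, map_zero]
    refine ⟨fun r => ?_, fun r hr => (Thin.empty 2).mono fun x hx => hr (hu r x hx),
      fun T _ hc => (Thin.empty 4).mono fun x hx => ?_⟩
    · rw [r.eq_C_of_isEmpty]
      simp only [MvPolynomial.eval_C]
      exact contDiff_const
    · exact not_isUnit_zero (hc 0 fun r hr => zero_dvd_iff.2 (hu r x (hx r hr)))
  | succ k ih =>
    refine ih.step.equiv (((Fin.consLinearEquiv ℝ fun _ : Fin (k + 1) => ℂ).symm.trans
      (LinearEquiv.prodComm ℝ _ _)).toContinuousLinearEquiv)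
      (MvPolynomial.finSuccEquiv ℂ k).toRingEquiv fun x r => ?_
    conv_lhs => rw [← Fin.cons_self_tail x, MvPolynomial.eval_eq_eval_mv_eval']
    rw [coe_eval₂RingHom, eval₂_eq_eval_map]
    rfl

/-- a three-dimensional family can be translated off the common zeros of two coprime
polynomials -/
theorem avoid {J : Type} {a b : MvPolynomial J ℂ} (hab : IsRelPrime a b) {T : ℂ × ℝ → J → ℂ}
    (hT : ∀ j, ContDiff ℝ 1 fun y => T y j) {N : Set (J → ℂ)} (hN : N ∈ 𝓝 0) :
    ∃ c ∈ N, ∀ y, ¬ (MvPolynomial.eval (T y + c) a = 0 ∧ MvPolynomial.eval (T y + c) b = 0) := by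
  classical
  obtain ⟨s, a₁, b₁, rfl, rfl⟩ := MvPolynomial.exists_finset_rename₂ a b
  let f : Fin s.card → J := fun i => (s.equivFin.symm i).1
  have hf : Function.Injective f := Subtype.val_injective.comp s.equivFin.symm.injective
  have e1 : ∀ q : MvPolynomial s ℂ, MvPolynomial.rename Subtype.val q =
      MvPolynomial.rename f (MvPolynomial.rename s.equivFin q) := fun q => by
    rw [MvPolynomial.rename_rename]
    congr 2
    funext i
    simp [f]
  rw [e1, e1] at hab ⊢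
  generalize MvPolynomial.rename s.equivFin a₁ = a at hab ⊢
  generalize MvPolynomial.rename s.equivFin b₁ = b at hab ⊢
  have h1 := (gen_mv s.card).two {a, b} (toFinite _).countable (fun d hd => by
    simpa only [MvPolynomial.killCompl_rename_app] using
      (hab (map_dvd _ (hd a (by simp))) (map_dvd _ (hd b (by simp)))).map
        (MvPolynomial.killCompl hf)) ((ℂ × ℝ) × ℝ)
    (by simp [finrank_prod, Complex.finrank_real_complex])
  let G : (Fin s.card → ℂ) × ((ℂ × ℝ) × ℝ) → (Fin s.card → ℂ) × ℝ := fun p =>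
    (p.1 - fun i => T p.2.1 (f i), p.2.2)
  have hG : ContDiff ℝ 1 G := (contDiff_fst.sub (contDiff_pi.2 fun i =>
    (hT (f i)).comp contDiff_snd.fst)).prodMk contDiff_snd.snd
  have h2 := dense_compl_of_dimH_lt_finrank
    (((hG.contDiffOn (s := univ)).dimH_image_le convex_univ (subset_univ _)).trans_lt
      (h1.trans_lt (by
        simp only [finrank_prod, Complex.finrank_real_complex, finrank_self, Nat.cast_lt]
        omega)))
  let ex : (Fin s.card → ℂ) × ℝ → J → ℂ := fun p => Function.extend f p.1 0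
  have hex : ∀ p i, ex p (f i) = p.1 i := fun p i => hf.extend_apply _ _ _
  have hc : Continuous ex := continuous_pi fun j => by
    by_cases h : ∃ i, f i = j
    · obtain ⟨i, rfl⟩ := h
      simp only [hex]
      fun_prop
    · simp only [ex, Function.extend_apply' _ _ _ h]
      exact continuous_const
  have h0 : ex 0 = 0 := by
    funext j
    by_cases h : ∃ i, f i = j
    · obtain ⟨i, rfl⟩ := h
      exact hex _ _
    · exact Function.extend_apply' _ _ _ h
  obtain ⟨p, hp, hpN⟩ := h2.inter_nhds_nonempty (hc.continuousAt.preimage_mem_nhds (h0 ▸ hN))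
  refine ⟨ex p, hpN, fun y hy => hp ⟨((T y + ex p) ∘ f, (y, p.2)), ⟨?_, trivial⟩, ?_⟩⟩
  · simpa only [MvPolynomial.eval_rename, mem_insert_iff, mem_singleton_iff, forall_eq_or_imp,
      forall_eq, mem_ofPred_eq] using hy
  · refine Prod.ext (funext fun i => ?_) rfl
    simp [G, hex]

end Pool.Agent.MP_2023ef_al.H81
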