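import Pool.Agent.MP_2023ef_al.h81.Thin

/-!
A polynomial ring with two fresh variables for each pair of its elements, and evaluations of the
variables as functions on the sphere.
-/

set_option autoImplicit false

open Set Filter Topology MvPolynomial ComplexConjugate

namespace Pool.Agent.MP_2023ef_al.H81

/-- formal expressions -/
inductive Tm : Type
  | c : ℂ → Tm
  | x : Fin 2 × Fin 2 → Tm
  | add : Tm → Tm → Tm
  | mul : Tm → Tm → Tm
  | g : Tm → Tm → Bool → Tm

abbrev Vr : Type := (Fin 2 × Fin 2) ⊕ ((Tm × Tm) × Bool)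

abbrev Rg : Type := MvPolynomial Vr ℂ

noncomputable def Tm.ev : Tm → Rg
  | .c z => C z
  | .x q => X (.inl q)
  | .add a b => a.ev + b.ev
  | .mul a b => a.ev * b.ev
  | .g a b β => X (.inr ((a, b), β))

def Tm.sz : Tm → ℕ
  | .c _ => 0
  | .x _ => 0
  | .add a b => a.sz + b.sz
  | .mul a b => a.sz + b.sz
  | .g a b _ => a.sz + b.sz + 1

def rk : Vr → ℕ
  | .inl _ => 0
  | .inr j => j.1.1.sz + j.1.2.sz + 1

theorem ev_surj : Function.Surjective Tm.ev := fun p => by
  induction p using MvPolynomial.induction_on with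
  | C z => exact ⟨.c z, rfl⟩
  | add p q hp hq =>
    obtain ⟨a, rfl⟩ := hp
    obtain ⟨b, rfl⟩ := hq
    exact ⟨.add a b, rfl⟩
  | mul_X p k hp =>
    obtain ⟨a, rfl⟩ := hp
    rcases k with q | ⟨⟨s, t⟩, β⟩
    · exact ⟨.mul a (.x q), rfl⟩
    · exact ⟨.mul a (.g s t β), rfl⟩

theorem eval_congr {v w : Vr → ℂ} (t : Tm) (h : ∀ k, rk k ≤ t.sz → v k = w k) :
    eval v t.ev = eval w t.ev := by
  induction t with
  | c z => simp [Tm.ev]
  | x q => simpa [Tm.ev] using h _ le_rfl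
  | add a b ha hb =>
    rw [Tm.ev, map_add, map_add, ha fun k hk => h k (hk.trans (Nat.le_add_right _ _)),
      hb fun k hk => h k (hk.trans (Nat.le_add_left _ _))]
  | mul a b ha hb =>
    rw [Tm.ev, map_mul, map_mul, ha fun k hk => h k (hk.trans (Nat.le_add_right _ _)),
      hb fun k hk => h k (hk.trans (Nat.le_add_left _ _))]
  | g a b β _ _ => simpa [Tm.ev] using h _ le_rfl

theorem contDiff_eval {T : ℂ × ℝ → Vr → ℂ} (hT : ∀ k, ContDiff ℝ 1 fun y => T y k) (p : Rg) :
    ContDiff ℝ 1 fun y => eval (T y) p := by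
  induction p using MvPolynomial.induction_on with
  | C z => simpa only [eval_C] using contDiff_const
  | add p q hp hq => simpa only [map_add] using hp.add hq
  | mul_X p k hp => simpa only [map_mul, eval_X] using hp.mul (hT k)

/-- the sphere -/
def Sph : Set (ℂ × ℝ) := {y | ‖y.1‖ ^ 2 + y.2 ^ 2 = 1}

theorem isCompact_Sph : IsCompact Sph := by
  refine (isCompact_closedBall (0 : ℂ × ℝ) 1).of_isClosed_subset
    (isClosed_eq (by fun_prop) continuous_const) fun y hy => ?_
  have h : ‖y.1‖ ^ 2 + y.2 ^ 2 = 1 := hy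
  rw [mem_closedBall_zero_iff, Prod.norm_def, max_le_iff, Real.norm_eq_abs, abs_le]
  refine ⟨?_, ?_, ?_⟩ <;> nlinarith [norm_nonneg y.1, sq_nonneg y.2, sq_nonneg ‖y.1‖]

/-- the projection onto the tautological line -/
noncomputable def hopf (y : ℂ × ℝ) : Matrix (Fin 2) (Fin 2) ℂ :=
  !![(1 + y.2) / 2, conj y.1 / 2; y.1 / 2, (1 - y.2) / 2]

theorem contDiff_hopf (i j : Fin 2) : ContDiff ℝ 1 fun y => hopf y i j := by
  have h1 : ContDiff ℝ 1 fun y : ℂ × ℝ => (y.2 : ℂ) := Complex.ofRealCLM.contDiff.comp contDiff_snd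
  have h2 : ContDiff ℝ 1 fun y : ℂ × ℝ => conj y.1 := Complex.conjCLE.contDiff.comp contDiff_fst
  fin_cases i <;> fin_cases j
  · exact (contDiff_const.add h1).div_const _
  · exact h2.div_const _
  · exact contDiff_fst.div_const _
  · exact (contDiff_const.sub h1).div_const _

/-- the combination of the pair `j` with its two variables -/
noncomputable def cmb (j : Tm × Tm) : Rg := X (.inr (j, false)) * j.1.ev + X (.inr (j, true)) * j.2.ev

/-- the condition attached to the pair `j` -/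
def Ok (j : Tm × Tm) (v : Vr → ℂ) : Prop :=
  ‖v (.inr (j, false))‖ < 2 ∧ ‖v (.inr (j, true))‖ < 2 ∧
    ‖eval v j.1.ev‖ < 2 * ‖eval v (cmb j)‖ ∧ ‖eval v j.2.ev‖ < 2 * ‖eval v (cmb j)‖

theorem isOpen_Ok (j : Tm × Tm) : IsOpen {v | Ok j v} := by
  have h := fun p : Rg => (MvPolynomial.continuous_eval p).norm
  exact (isOpen_lt (continuous_apply _).norm continuous_const).inter
    ((isOpen_lt (continuous_apply _).norm continuous_const).inter
      ((isOpen_lt (h _) (continuous_const.mul (h _))).inter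
        (isOpen_lt (h _) (continuous_const.mul (h _)))))

theorem Ok.congr {j : Tm × Tm} {v w : Vr → ℂ} (h : Ok j v)
    (h1 : ∀ k, rk k ≤ j.1.sz + j.2.sz → w k = v k) (h2 : ∀ β, w (.inr (j, β)) = v (.inr (j, β))) :
    Ok j w := by
  have e1 := eval_congr j.1 fun k hk => h1 k (hk.trans (Nat.le_add_right _ _))
  have e2 := eval_congr j.2 fun k hk => h1 k (hk.trans (Nat.le_add_left _ _))
  simpa only [Ok, cmb, map_add, map_mul, eval_X, e1, e2, h2] using h

theorem unit_pair {a b : ℂ} (h : ¬ (a = 0 ∧ b = 0)) {ρ : ℝ} (hρ : ρ = √(‖a‖ ^ 2 + ‖b‖ ^ 2)) :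
    ‖conj a / ρ‖ < 2 ∧ ‖conj b / ρ‖ < 2 ∧ ‖a‖ < 2 * ‖conj a / ρ * a + conj b / ρ * b‖ ∧
      ‖b‖ < 2 * ‖conj a / ρ * a + conj b / ρ * b‖ := by
  have h0 : 0 < ‖a‖ ^ 2 + ‖b‖ ^ 2 := by
    by_contra hc
    refine h ⟨norm_eq_zero.1 ?_, norm_eq_zero.1 ?_⟩ <;>
      nlinarith [sq_nonneg ‖a‖, sq_nonneg ‖b‖]
  have hp : 0 < ρ := hρ ▸ Real.sqrt_pos.2 h0
  have h2 : ρ ^ 2 = ‖a‖ ^ 2 + ‖b‖ ^ 2 := hρ ▸ Real.sq_sqrt h0.le
  have ha : ‖a‖ ≤ ρ := by nlinarith [norm_nonneg a, sq_nonneg ‖b‖]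
  have hb : ‖b‖ ≤ ρ := by nlinarith [norm_nonneg b, sq_nonneg ‖a‖]
  have e : conj a / ρ * a + conj b / ρ * b = ρ := by
    have h3 : (ρ : ℂ) ≠ 0 := by exact_mod_cast hp.ne'
    rw [div_mul_eq_mul_div, div_mul_eq_mul_div, ← add_div, Complex.conj_mul', Complex.conj_mul',
      div_eq_iff h3, ← sq]
    exact_mod_cast h2.symm
  simp only [e, norm_div, RCLike.norm_conj, Complex.norm_real, Real.norm_of_nonneg hp.le,
    div_lt_iff₀ hp]
  refine ⟨?_, ?_, ?_, ?_⟩ <;> linarith

/-- finitely many conditions can be met -/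
theorem exists_assign (s : Finset (Tm × Tm)) {ε : ℝ} (hε : 0 < ε) :
    ∃ T : ℂ × ℝ → Vr → ℂ, (∀ k, ContDiff ℝ 1 fun y => T y k) ∧ ∀ y ∈ Sph,
      (∀ q, ‖T y (.inl q) - hopf y q.1 q.2‖ < ε) ∧
        ∀ j ∈ s, IsRelPrime j.1.ev j.2.ev → Ok j (T y) := by
  classical
  induction s using Finset.induction_on_max_value fun j : Tm × Tm => j.1.sz + j.2.sz with
  | empty =>
    refine ⟨fun y => Sum.elim (fun q => hopf y q.1 q.2) 0, ?_, fun y _ => ⟨fun q => ?_, by simp⟩⟩
    · rintro (q | k)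
      · exact contDiff_hopf _ _
      · exact contDiff_const
    · simpa using hε
  | insert j s hj hmax ih =>
    obtain ⟨T, hT, hs⟩ := ih
    by_cases hrel : IsRelPrime j.1.ev j.2.ev
    swap
    · refine ⟨T, hT, fun y hy => ⟨(hs y hy).1, fun i hi h => ?_⟩⟩
      rcases Finset.mem_insert.1 hi with rfl | hi
      · exact absurd h hrel
      · exact (hs y hy).2 i hi h
    have hc : Continuous fun z : (Vr → ℂ) × (ℂ × ℝ) => T z.2 + z.1 :=
      ((continuous_pi fun k => (hT k).continuous).comp continuous_snd).add continuous_fst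
    have hN : ∀ᶠ c in 𝓝 (0 : Vr → ℂ), ∀ y ∈ Sph,
        (∀ q, ‖(T y + c) (.inl q) - hopf y q.1 q.2‖ < ε) ∧
          ∀ i ∈ s, IsRelPrime i.1.ev i.2.ev → Ok i (T y + c) := by
      refine isCompact_Sph.eventually_forall_of_forall_eventually fun y hy => ?_
      refine (eventually_all.2 fun q => ?_).and ((eventually_all_finset s).2 fun i hi => ?_)
      · refine (isOpen_lt (((continuous_apply _).comp hc).sub
          ((contDiff_hopf q.1 q.2).continuous.comp continuous_snd)).norm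
          continuous_const).mem_nhds ?_
        simpa using (hs y hy).1 q
      · by_cases h : IsRelPrime i.1.ev i.2.ev
        · refine mem_of_superset (((isOpen_Ok i).preimage hc).mem_nhds ?_) fun z hz _ => hz
          simpa using (hs y hy).2 i hi h
        · exact Eventually.of_forall fun z h' => absurd h' h
    obtain ⟨c, hcN, hav⟩ := avoid hrel hT hN
    have hT1 : ∀ k, ContDiff ℝ 1 fun y => (T y + c) k := fun k => (hT k).add contDiff_const
    let a : ℂ × ℝ → ℂ := fun y => eval (T y + c) j.1.ev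
    let b : ℂ × ℝ → ℂ := fun y => eval (T y + c) j.2.ev
    have ha : ContDiff ℝ 1 a := contDiff_eval hT1 _
    have hb : ContDiff ℝ 1 b := contDiff_eval hT1 _
    let ρ : ℂ × ℝ → ℝ := fun y => √(‖a y‖ ^ 2 + ‖b y‖ ^ 2)
    have hpos : ∀ y, 0 < ‖a y‖ ^ 2 + ‖b y‖ ^ 2 := fun y => by
      by_contra h
      refine hav y ⟨norm_eq_zero.1 ?_, norm_eq_zero.1 ?_⟩ <;>
        nlinarith [sq_nonneg ‖a y‖, sq_nonneg ‖b y‖]
    have hρ : ContDiff ℝ 1 fun y => (ρ y : ℂ) := Complex.ofRealCLM.contDiff.comp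
      (((ha.norm_sq ℂ).add (hb.norm_sq ℂ)).sqrt fun y => (hpos y).ne')
    have hρ0 : ∀ y, (ρ y : ℂ) ≠ 0 := fun y => by exact_mod_cast (Real.sqrt_pos.2 (hpos y)).ne'
    let T' : ℂ × ℝ → Vr → ℂ := fun y k =>
      if k = .inr (j, false) then conj (a y) / ρ y else
        if k = .inr (j, true) then conj (b y) / ρ y else (T y + c) k
    have e0 : ∀ y k, (∀ β, k ≠ .inr (j, β)) → T' y k = (T y + c) k := fun y k h => by
      simp only [T', if_neg (h _)]
    have e1 : ∀ y k, rk k ≤ j.1.sz + j.2.sz → T' y k = (T y + c) k := fun y k h =>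
      e0 y k fun β hk => by
        rw [hk, rk] at h
        exact absurd h (Nat.not_succ_le_self _)
    have hdiv : ∀ {f : ℂ × ℝ → ℂ}, ContDiff ℝ 1 f → ContDiff ℝ 1 fun y => conj (f y) / ρ y :=
      fun hf => by
        simp only [div_eq_mul_inv]
        exact (Complex.conjCLE.contDiff.comp hf).mul (hρ.inv hρ0)
    refine ⟨T', fun k => ?_, fun y hy => ⟨fun q => ?_, fun i hi h => ?_⟩⟩
    · simp only [T']
      split_ifs
      exacts [hdiv ha, hdiv hb, hT1 k]
    · rw [e1 y _ (Nat.zero_le _)]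
      exact (hcN y hy).1 q
    · rcases Finset.mem_insert.1 hi with rfl | hi
      · have ea : eval (T' y) i.1.ev = a y :=
          eval_congr _ fun k hk => e1 y k (hk.trans (Nat.le_add_right _ _))
        have eb : eval (T' y) i.2.ev = b y :=
          eval_congr _ fun k hk => e1 y k (hk.trans (Nat.le_add_left _ _))
        have eu : T' y (.inr (i, false)) = conj (a y) / ρ y := if_pos rfl
        have ev : T' y (.inr (i, true)) = conj (b y) / ρ y := by simp [T']
        simpa only [Ok, cmb, map_add, map_mul, eval_X, ea, eb, eu, ev] using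
          unit_pair (hav y) (ρ := ρ y) rfl
      · refine ((hcN y hy).2 i hi h).congr (fun k hk => e1 y k (hk.trans (hmax i hi)))
          fun β => e0 y _ fun β' hk => hj ?_
        rwa [← (Prod.mk.inj (Sum.inr.inj hk)).1]

end Pool.Agent.MP_2023ef_al.H81
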